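import Pool.Agent.P.MP_9155ad_al.Grp

/-!
A version in which the automorphism has order exactly `64`: multiply by a fixed elementary abelian
group on which a cyclic shift of order `64` is splitting.
-/

namespace Pool.Agent.P.MP_9155ad_al

/-- sum of the coordinates -/
def sumHom : (ZMod 64 → ZMod 2) →+ ZMod 2 where
  toFun v := ∑ a, v a
  map_zero' := by simp
  map_add' v w := by simp [Finset.sum_add_distrib]

/-- vectors with coordinate sum zero -/
abbrev Cs : Type := Multiplicative sumHom.ker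

/-- cyclic shift by `c` -/
def sh (c : ZMod 64) (v : Cs) : Cs :=
  Multiplicative.ofAdd ⟨fun a => v.toAdd.1 (a + c), by
    have h : ∑ a, v.toAdd.1 a = 0 := v.toAdd.2
    change ∑ a, v.toAdd.1 (a + c) = 0
    rw [← h]
    exact Equiv.sum_comp (Equiv.addRight c) v.toAdd.1⟩

lemma Cs_ext {v w : Cs} (h : ∀ a, v.toAdd.1 a = w.toAdd.1 a) : v = w :=
  Multiplicative.toAdd.injective (Subtype.ext (funext h))

/-- the shift as an automorphism -/
def psi : MulAut Cs where
  toFun := sh 1
  invFun := sh (-1)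
  left_inv v := Cs_ext fun a => by simp [sh]
  right_inv v := Cs_ext fun a => by simp [sh]
  map_mul' v w := Cs_ext fun a => rfl

lemma psi_pow (i : ℕ) (v : Cs) (a : ZMod 64) :
    ((psi ^ i) v).toAdd.1 a = v.toAdd.1 (a + i) := by
  induction i generalizing a with
  | zero => simp
  | succ i ih =>
    rw [pow_succ', MulAut.mul_apply]
    change ((psi ^ i) v).toAdd.1 (a + 1) = _
    rw [ih, Nat.cast_succ, add_assoc, add_comm (1 : ZMod 64)]

lemma psi_prod (v : Cs) (a : ZMod 64) (m : ℕ) :
    ((List.range m).map (fun i => (psi ^ i) v)).prod.toAdd.1 a =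
      ∑ i ∈ Finset.range m, v.toAdd.1 (a + i) := by
  induction m with
  | zero => simp
  | succ m ih =>
    rw [List.range_succ, List.map_append, List.prod_append, Finset.sum_range_succ, ← ih,
      ← psi_pow]
    simp

lemma sum_range_zmod (n : ℕ) [NeZero n] (f : ZMod n → ZMod 2) :
    ∑ i ∈ Finset.range n, f i = ∑ b, f b := by
  refine Finset.sum_bij (fun i _ => (i : ZMod n)) (fun _ _ => Finset.mem_univ _) ?_ ?_
    (fun _ _ => rfl)
  · intro i hi j hj h
    have h1 := congrArg ZMod.val h
    rwa [ZMod.val_natCast_of_lt (Finset.mem_range.mp hi),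
      ZMod.val_natCast_of_lt (Finset.mem_range.mp hj)] at h1
  · intro b _
    exact ⟨b.val, Finset.mem_range.mpr (ZMod.val_lt b), ZMod.natCast_zmod_val b⟩

lemma psi_split (v : Cs) (m : ℕ) (hm : m = 64) :
    ((List.range m).map (fun i => (psi ^ i) v)).prod = 1 := by
  refine Cs_ext fun a => ?_
  rw [psi_prod, hm]
  have h : ∑ a, v.toAdd.1 a = 0 := v.toAdd.2
  have h2 : ∑ i ∈ Finset.range 64, v.toAdd.1 (a + i) = ∑ b : ZMod 64, v.toAdd.1 (a + b) :=
    sum_range_zmod 64 (fun b => v.toAdd.1 (a + b))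
  exact h2.trans ((Equiv.sum_comp (Equiv.addLeft a) v.toAdd.1).trans h)

lemma psi_pow64 : psi ^ 64 = 1 := by
  refine MulEquiv.ext fun v => Cs_ext fun a => ?_
  rw [psi_pow]
  have : ((64 : ℕ) : ZMod 64) = 0 := ZMod.natCast_self 64
  rw [this, add_zero]
  rfl

/-- a vector moved by the `32`-nd power of the shift -/
def v0 : Cs := Multiplicative.ofAdd ⟨Pi.single 0 1 + Pi.single 1 1, by
  have h : ∀ a : ZMod 64, sumHom (Pi.single a 1) = 1 := by
    intro a
    change ∑ b, (Pi.single a 1 : ZMod 64 → ZMod 2) b = 1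
    rw [Finset.sum_pi_single', if_pos (Finset.mem_univ _)]
  rw [AddMonoidHom.mem_ker, map_add, h, h]
  decide⟩

lemma psi_pow32 : (psi ^ 32) v0 ≠ v0 := by
  intro h
  have h1 := psi_pow 32 v0 0
  rw [h] at h1
  revert h1
  decide

variable (k : ℕ)

/-- the enlarged group -/
abbrev GX : Type := GG k × Cs

/-- the enlarged automorphism -/
noncomputable def phiX : MulAut (GX k) := MulEquiv.prodCongr (phi k) psi

lemma phiX_pow (i : ℕ) (x : GX k) : (phiX k ^ i) x = ((phi k ^ i) x.1, (psi ^ i) x.2) := by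
  induction i with
  | zero => rfl
  | succ i ih =>
    rw [pow_succ', pow_succ', pow_succ', MulAut.mul_apply, MulAut.mul_apply, MulAut.mul_apply, ih]
    rfl

lemma orderOf_phiX : orderOf (phiX k) = 2 ^ 6 := by
  have : Fact (Nat.Prime 2) := ⟨Nat.prime_two⟩
  refine orderOf_eq_prime_pow (n := 5) ?_ ?_
  · intro h
    have h1 := phiX_pow k (2 ^ 5) (1, v0)
    rw [h] at h1
    exact psi_pow32 (congrArg Prod.snd h1).symm
  · refine MulEquiv.ext fun x => ?_
    rw [phiX_pow, show 2 ^ (5 + 1) = 64 by norm_num, phi_pow, psi_pow64]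
    rfl

lemma splitX (x : GX k) (m : ℕ) (hm : m = 64) :
    ((List.range m).map (fun i => (phiX k ^ i) x)).prod = 1 := by
  refine Prod.ext ?_ ?_
  · have h := map_list_prod (MonoidHom.fst (GG k) Cs) ((List.range m).map (fun i => (phiX k ^ i) x))
    rw [List.map_map] at h
    refine h.trans ?_
    have h2 : (MonoidHom.fst (GG k) Cs ∘ fun i => (phiX k ^ i) x) = fun i => (phi k ^ i) x.1 := by
      funext i
      exact congrArg Prod.fst (phiX_pow k i x)
    rw [h2]
    exact split k x.1 m hm
  · have h := map_list_prod (MonoidHom.snd (GG k) Cs) ((List.range m).map (fun i => (phiX k ^ i) x))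
    rw [List.map_map] at h
    refine h.trans ?_
    have h2 : (MonoidHom.snd (GG k) Cs ∘ fun i => (phiX k ^ i) x) = fun i => (psi ^ i) x.2 := by
      funext i
      exact congrArg Prod.snd (phiX_pow k i x)
    rw [h2]
    exact psi_split x.2 m hm

lemma isPGroupX : IsPGroup 2 (GX k) := by
  intro x
  obtain ⟨e, he⟩ := isPGroup k x.1
  refine ⟨e + 1, Prod.ext ?_ ?_⟩
  · change x.1 ^ 2 ^ (e + 1) = 1
    rw [pow_succ, pow_mul, he, one_pow]
  · change x.2 ^ 2 ^ (e + 1) = 1
    have h : x.2 ^ 2 = 1 := by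
      refine Cs_ext fun a => ?_
      rw [pow_two]
      exact CharTwo.add_self_eq_zero (x.2.toAdd.1 a)
    rw [pow_succ', pow_mul, h, one_pow]

lemma derivedX_ne_bot : derivedSeries (GX k) k ≠ ⊥ := by
  intro h
  have h1 := map_derivedSeries_eq (f := MonoidHom.fst (GG k) Cs) Prod.fst_surjective k
  rw [h, Subgroup.map_bot] at h1
  exact derived_ne_bot k h1.symm

lemma exists_gensX : ∃ S : Finset (GX k), S.card ≤ 10 + Fintype.card Cs ∧
    Subgroup.closure (S : Set (GX k)) = ⊤ := by
  classical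
  obtain ⟨S, hS, hc⟩ := exists_gens k
  refine ⟨S.image (MonoidHom.inl _ _) ∪ Finset.univ.image (MonoidHom.inr _ _), ?_, ?_⟩
  · refine (Finset.card_union_le _ _).trans (add_le_add (Finset.card_image_le.trans hS) ?_)
    exact Finset.card_image_le.trans (by simp)
  · rw [eq_top_iff]
    rintro ⟨x, c⟩ -
    have h1 : ((x, c) : GX k) = MonoidHom.inl _ _ x * MonoidHom.inr _ _ c := by simp
    rw [h1]
    refine mul_mem ?_ (Subgroup.subset_closure (by simp))
    have h2 : MonoidHom.inl (GG k) Cs x ∈ (Subgroup.closure (S : Set (GG k))).map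
        (MonoidHom.inl (GG k) Cs) := ⟨x, by rw [hc]; trivial, rfl⟩
    rw [MonoidHom.map_closure] at h2
    refine Subgroup.closure_mono ?_ h2
    rw [Finset.coe_union, Finset.coe_image]
    exact Set.subset_union_left

end Pool.Agent.P.MP_9155ad_al
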