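import Pool.Agent.P.MP_9155ad_al.Ring

/-!
The groups: inside `GL_3(R) ⋊ Perm(A)`, with `A = Z / 2^k` and `R = F_2[F_2^A]`, take the subgroup
generated by the elementary matrices in the variable `x_0` and the translation of `A`; the
automorphism is conjugation by the permutation `a ↦ -a`.
-/

namespace Pool.Agent.P.MP_9155ad_al

open Matrix SemidirectProduct
open scoped commutatorElement

set_option linter.unusedSectionVars false

section General

lemma prod_conj {H : Type} [Group H] (τ x : H) (m : ℕ) :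
    ((List.range m).map (fun i => τ ^ i * x * (τ ^ i)⁻¹)).prod = (x * τ) ^ m * (τ ^ m)⁻¹ := by
  induction m with
  | zero => simp
  | succ m ih =>
    rw [List.range_succ, List.map_append, List.prod_append, ih]
    simp only [List.map_cons, List.map_nil, List.prod_cons, List.prod_nil, mul_one]
    rw [pow_succ, pow_succ' τ]
    group

lemma map_derived_succ {H : Type} [Group H] (G : Subgroup H) (t : ℕ) :
    (derivedSeries G (t + 1)).map G.subtype =
      ⁅(derivedSeries G t).map G.subtype, (derivedSeries G t).map G.subtype⁆ := by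
  rw [derivedSeries_succ, Subgroup.map_commutator]

end General

variable (A : Type) [Fintype A] [DecidableEq A]

/-- invertible `3 × 3` matrices over the group algebra -/
abbrev GL3 : Type := (Matrix (Fin 3) (Fin 3) (Rg A))ˣ

/-- the action of permutations of `A` on invertible matrices -/
noncomputable def act : Equiv.Perm A →* MulAut (GL3 A) where
  toFun g := Units.mapEquiv (RingEquiv.mapMatrix (m := Fin 3) (permR g)).toMulEquiv
  map_one' := by
    refine MulEquiv.ext fun u => Units.ext (Matrix.ext fun i j => ?_)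
    exact permR_one ((u : Matrix (Fin 3) (Fin 3) (Rg A)) i j)
  map_mul' g h := by
    refine MulEquiv.ext fun u => Units.ext (Matrix.ext fun i j => ?_)
    exact permR_mul g h ((u : Matrix (Fin 3) (Fin 3) (Rg A)) i j)

variable {A}

lemma act_val (g : Equiv.Perm A) (u : GL3 A) (i j : Fin 3) :
    (act A g u : Matrix (Fin 3) (Fin 3) (Rg A)) i j =
      permR g ((u : Matrix (Fin 3) (Fin 3) (Rg A)) i j) := rfl

lemma act_el (g : Equiv.Perm A) (i j : Fin 3) (c : Rg A) :
    act A g (el i j c) = el i j (permR g c) := by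
  by_cases h : i = j
  · simp [el, h]
  · refine Units.ext (Matrix.ext fun a b => ?_)
    rw [act_val, el_val h, el_val h]
    simp only [Matrix.add_apply, map_add, Matrix.one_apply, Matrix.single_apply]
    split_ifs <;> simp

variable (A)

/-- the ambient group -/
abbrev HH : Type := GL3 A ⋊[act A] Equiv.Perm A

instance : Finite (HH A) := Finite.of_equiv _ (SemidirectProduct.equivProd).symm

/-- reduction of matrices modulo the augmentation ideal -/
noncomputable def red : GL3 A →* (Matrix (Fin 3) (Fin 3) (ZMod 2))ˣ :=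
  Units.map (RingHom.mapMatrix (m := Fin 3) (aug A : Rg A →+* ZMod 2)).toMonoidHom

lemma red_val (u : GL3 A) (i j : Fin 3) :
    (red A u : Matrix (Fin 3) (Fin 3) (ZMod 2)) i j =
      aug A ((u : Matrix (Fin 3) (Fin 3) (Rg A)) i j) := rfl

/-- reduction on the ambient group -/
noncomputable def eta : HH A →* (Matrix (Fin 3) (Fin 3) (ZMod 2))ˣ :=
  SemidirectProduct.lift (red A) 1 (by
    intro g
    ext u i j : 4
    simp only [MonoidHom.comp_apply, MonoidHom.one_apply, map_one, MulEquiv.coe_toMonoidHom,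
      MulAut.one_apply]
    rw [red_val, red_val, act_val, aug_permR])

variable {A}

lemma eta_inl (u : GL3 A) : eta A (inl u) = red A u := SemidirectProduct.lift_inl _ _ _ _

lemma eta_inr (g : Equiv.Perm A) : eta A (inr g) = 1 := SemidirectProduct.lift_inr _ _ _ _

lemma red_el (i j : Fin 3) (c : Rg A) (hc : aug A c = 0) : red A (el i j c) = 1 := by
  by_cases h : i = j
  · simp [el, h]
  · ext a b : 3
    rw [red_val, el_val h]
    simp only [Matrix.add_apply, map_add, Matrix.one_apply, Matrix.single_apply, Units.val_one]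
    split_ifs <;> simp [hc]

lemma pow32_of_red (u : GL3 A) (hu : red A u = 1) : u ^ 32 = 1 := by
  apply Units.ext
  have h := one_add_pow_eq_one ((u : Matrix (Fin 3) (Fin 3) (Rg A)) - 1) (by
    intro i j
    have h1 : aug A (((u : Matrix (Fin 3) (Fin 3) (Rg A)) - 1) i j) = 0 := by
      rw [Matrix.sub_apply, map_sub, ← red_val, hu]
      simp only [Matrix.one_apply, Units.val_one]
      split_ifs <;> simp
    rw [mul_self_eq, h1, map_zero])
  rw [add_sub_cancel] at h
  rw [Units.val_pow_eq_pow_val, h, Units.val_one]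

lemma pow32 (x : HH A) (h1 : eta A x = 1) (h2 : rightHom x = 1) : x ^ 32 = 1 := by
  have hx : x = inl x.left := by
    conv_lhs => rw [← inl_left_mul_inr_right x]
    have : x.right = 1 := h2
    rw [this, map_one, mul_one]
  rw [hx, eta_inl] at h1
  rw [hx, ← map_pow, pow32_of_red _ h1, map_one]

section Cyc

variable (k : ℕ)

instance : NeZero (2 ^ k) := ⟨by positivity⟩

/-- translations of `Z / 2^k` -/
def tr : Multiplicative (ZMod (2 ^ k)) →* Equiv.Perm (ZMod (2 ^ k)) where
  toFun c := Equiv.addLeft c.toAdd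
  map_one' := by ext a; simp
  map_mul' c d := by ext a; simp

/-- the generators -/
noncomputable def gen : Option (Fin 3 × Fin 3) → HH (ZMod (2 ^ k))
  | none => inr (tr k (Multiplicative.ofAdd 1))
  | some p => inl (el p.1 p.2 (xv 0))

/-- the group -/
noncomputable def GG : Subgroup (HH (ZMod (2 ^ k))) := Subgroup.closure (Set.range (gen k))

/-- the involution -/
noncomputable def tau : HH (ZMod (2 ^ k)) := inr (Equiv.neg _)

lemma tau_mul_tau : tau k * tau k = 1 := by
  rw [tau, ← map_mul]
  have : Equiv.neg (ZMod (2 ^ k)) * Equiv.neg (ZMod (2 ^ k)) = 1 := by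
    ext a; simp
  rw [this, map_one]

lemma tau_inv : (tau k)⁻¹ = tau k := inv_eq_of_mul_eq_one_right (tau_mul_tau k)

lemma gen_mem (i : Option (Fin 3 × Fin 3)) : gen k i ∈ GG k :=
  Subgroup.subset_closure ⟨i, rfl⟩

lemma eta_of_mem (x : HH (ZMod (2 ^ k))) (hx : x ∈ GG k) : eta _ x = 1 := by
  have : GG k ≤ (eta _).ker := by
    rw [GG, Subgroup.closure_le]
    rintro _ ⟨i, rfl⟩
    rcases i with _ | p
    · exact eta_inr _
    · exact (eta_inl _).trans (red_el _ _ _ (aug_xv _))
  exact this hx

lemma right_of_mem (x : HH (ZMod (2 ^ k))) (hx : x ∈ GG k) : ∃ c, tr k c = rightHom x := by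
  have : GG k ≤ (tr k).range.comap rightHom := by
    rw [GG, Subgroup.closure_le]
    rintro _ ⟨i, rfl⟩
    rcases i with _ | p
    · exact ⟨_, (rightHom_inr _).symm⟩
    · exact ⟨1, (map_one _).trans (rightHom_inl _).symm⟩
  exact this hx

lemma conj_mem (x : HH (ZMod (2 ^ k))) (hx : x ∈ GG k) : tau k * x * (tau k)⁻¹ ∈ GG k := by
  have : GG k ≤ (GG k).comap (MulAut.conj (tau k)).toMonoidHom := by
    conv_lhs => rw [GG]
    rw [Subgroup.closure_le]
    rintro _ ⟨i, rfl⟩
    change tau k * gen k i * (tau k)⁻¹ ∈ GG k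
    rcases i with _ | p
    · have h : tau k * gen k none * (tau k)⁻¹ = (gen k none)⁻¹ := by
        simp only [tau, gen, ← map_inv, ← map_mul]
        congr 1
        ext a
        simp [tr, add_comm]
      rw [h]
      exact inv_mem (gen_mem k none)
    · have h : tau k * gen k (some p) * (tau k)⁻¹ = gen k (some p) := by
        simp only [tau, gen, ← map_inv]
        rw [← inl_aut, act_el, permR_xv]
        simp
      rw [h]
      exact gen_mem k _
  exact this hx

lemma tau_mem_normalizer : tau k ∈ Subgroup.normalizer (GG k : Set (HH (ZMod (2 ^ k)))) := by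
  rw [Subgroup.mem_normalizer_iff]
  intro x
  refine ⟨conj_mem k x, fun h => ?_⟩
  have h1 := conj_mem k _ h
  have h2 : tau k * (tau k * x * (tau k)⁻¹) * (tau k)⁻¹ = x := by
    rw [tau_inv]
    calc tau k * (tau k * x * tau k) * tau k = (tau k * tau k) * x * (tau k * tau k) := by group
      _ = x := by rw [tau_mul_tau]; simp
  rwa [h2] at h1

/-- the splitting automorphism -/
noncomputable def phi : MulAut (GG k) :=
  (GG k).normalizerMonoidHom ⟨tau k, tau_mem_normalizer k⟩

lemma phi_pow_val (i : ℕ) (x : GG k) :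
    (((phi k ^ i) x : GG k) : HH (ZMod (2 ^ k))) = tau k ^ i * x * (tau k ^ i)⁻¹ := by
  rw [phi, ← map_pow]
  rfl

lemma tau_pow : tau k ^ 64 = 1 := by
  rw [show 64 = 2 * 32 by norm_num, pow_mul, pow_two, tau_mul_tau, one_pow]

lemma phi_pow : phi k ^ 64 = 1 := by
  ext x : 2
  rw [phi_pow_val, tau_pow]
  simp

lemma mul_tau_pow (x : HH (ZMod (2 ^ k))) (hx : x ∈ GG k) : (x * tau k) ^ 64 = 1 := by
  rw [show 64 = 2 * 32 by norm_num, pow_mul]
  apply pow32
  · rw [map_pow, map_mul, eta_of_mem k x hx, tau, eta_inr]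
    simp
  · obtain ⟨c, hc⟩ := right_of_mem k x hx
    rw [map_pow, map_mul, ← hc, tau, rightHom_inr]
    ext a
    simp [tr, pow_two]

lemma split_val (x : GG k) (m : ℕ) :
    (GG k).subtype ((List.range m).map (fun i => (phi k ^ i) x)).prod =
      ((x : HH (ZMod (2 ^ k))) * tau k) ^ m * (tau k ^ m)⁻¹ := by
  rw [map_list_prod, List.map_map]
  have h2 : ((GG k).subtype ∘ fun i => (phi k ^ i) x) =
      fun i => tau k ^ i * (x : HH (ZMod (2 ^ k))) * (tau k ^ i)⁻¹ := by
    funext i
    exact phi_pow_val k i x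
  rw [h2, prod_conj]

lemma split (x : GG k) (m : ℕ) (hm : m = 64) :
    ((List.range m).map (fun i => (phi k ^ i) x)).prod = 1 := by
  apply (GG k).subtype_injective
  rw [split_val, map_one]
  subst hm
  rw [tau_pow, mul_tau_pow k _ x.2]
  simp

lemma isPGroup : IsPGroup 2 (GG k) := by
  intro x
  refine ⟨k + 5, ?_⟩
  apply Subtype.ext
  change (x : HH (ZMod (2 ^ k))) ^ (2 ^ (k + 5)) = 1
  rw [pow_add, pow_mul, show (2 : ℕ) ^ 5 = 32 by norm_num]
  apply pow32
  · rw [map_pow, eta_of_mem k _ x.2, one_pow]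
  · obtain ⟨c, hc⟩ := right_of_mem k _ x.2
    rw [map_pow, ← hc, ← map_pow]
    have : c ^ 2 ^ k = 1 := by
      have h := pow_card_eq_one (G := Multiplicative (ZMod (2 ^ k))) (x := c)
      rwa [Fintype.card_multiplicative, ZMod.card] at h
    rw [this, map_one]

lemma el_xv_mem (i j : Fin 3) (a : ZMod (2 ^ k)) :
    (inl (el i j (xv a)) : HH (ZMod (2 ^ k))) ∈ GG k := by
  have key : ∀ m : ℕ, (inl (el i j (xv ((m : ℕ) : ZMod (2 ^ k)))) : HH (ZMod (2 ^ k))) ∈ GG k := by
    intro m
    induction m with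
    | zero =>
      rw [Nat.cast_zero]
      exact gen_mem k (some (i, j))
    | succ m ih =>
      have h := mul_mem (mul_mem (gen_mem k none) ih) (inv_mem (gen_mem k none))
      rw [gen, ← map_inv, ← inl_aut, act_el, permR_xv] at h
      have h2 : (tr k (Multiplicative.ofAdd 1)) (m : ZMod (2 ^ k)) = ((m + 1 : ℕ) : ZMod (2 ^ k)) := by
        simp [tr, add_comm]
      rwa [h2] at h
  have := key a.val
  rwa [ZMod.natCast_zmod_val] at this

lemma el_prod_mem (t : ℕ) : ∀ S : Finset (ZMod (2 ^ k)), S.card = 2 ^ t → ∀ i j : Fin 3, i ≠ j →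
    (inl (el i j (∏ a ∈ S, xv a)) : HH (ZMod (2 ^ k))) ∈
      (derivedSeries (GG k) t).map (GG k).subtype := by
  induction t with
  | zero =>
    intro S hS i j _
    obtain ⟨a, rfl⟩ := Finset.card_eq_one.mp hS
    rw [Finset.prod_singleton]
    exact ⟨⟨_, el_xv_mem k i j a⟩, Subgroup.mem_top _, rfl⟩
  | succ t ih =>
    intro S hS i l hil
    obtain ⟨j, hij, hjl⟩ : ∃ j : Fin 3, i ≠ j ∧ j ≠ l := by
      revert i l; decide
    obtain ⟨T, hT, hTc⟩ := Finset.exists_subset_card_eq (s := S) (n := 2 ^ t)
      (by rw [hS, pow_succ]; omega)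
    have hc : (S \ T).card = 2 ^ t := by
      rw [Finset.card_sdiff_of_subset hT, hS, hTc, pow_succ]; omega
    rw [map_derived_succ, ← Finset.prod_sdiff hT, ← el_comm hij hjl hil, map_commutatorElement]
    exact Subgroup.commutator_mem_commutator (ih _ hc i j hij) (ih _ hTc j l hjl)

lemma derived_ne_bot : derivedSeries (GG k) k ≠ ⊥ := by
  intro h
  have h1 := el_prod_mem k k Finset.univ (by simp) 0 1 (by decide)
  rw [h, Subgroup.map_bot, Subgroup.mem_bot] at h1
  exact el_ne_one (by decide) (prod_xv_ne_zero _) (inl_injective (h1.trans (map_one _).symm))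

lemma exists_gens : ∃ S : Finset (GG k), S.card ≤ 10 ∧ Subgroup.closure (S : Set (GG k)) = ⊤ := by
  classical
  refine ⟨Finset.univ.image (fun i => (⟨gen k i, gen_mem k i⟩ : GG k)), ?_, ?_⟩
  · refine Finset.card_image_le.trans ?_
    simp
  · have h := Subgroup.closure_closure_coe_preimage (k := Set.range (gen k))
    refine Eq.trans ?_ h
    congr 1
    ext x
    simp only [Finset.coe_image, Finset.coe_univ, Set.image_univ, Set.mem_range]
    constructor
    · rintro ⟨i, rfl⟩; exact ⟨i, rfl⟩
    · rintro ⟨i, hi⟩; exact ⟨i, Subtype.ext hi⟩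

lemma isNilpotent : Group.IsNilpotent (GG k) :=
  haveI : Fact (Nat.Prime 2) := ⟨Nat.prime_two⟩
  (isPGroup k).isNilpotent

end Cyc

end Pool.Agent.P.MP_9155ad_al
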