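import Pool.Agent.P.MP_9155ad_al.RSig

/-!
Finite groups of exponent `p ≥ 5` and of exponent `9` of unbounded derived length.
-/

namespace Pool.Agent.P.MP_9155ad_al.Rz

open Polynomial TensorProduct
open scoped commutatorElement

section Defs

variable {k : Type} [CommRing k] {R S : Type} [CommRing R] [CommRing S] [Algebra k R] [Algebra k S]

/-- the traceless matrix with coordinates `(h, b, c)` -/
def mat (x : R × R × R) : Matrix (Fin 2) (Fin 2) R := !![x.1, x.2.1; x.2.2, -x.1]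

/-- the bracket in coordinates -/
def br (x y : R × R × R) : R × R × R :=
  (x.2.1 * y.2.2 - x.2.2 * y.2.1, 2 * (x.1 * y.2.1 - x.2.1 * y.1), 2 * (x.2.2 * y.1 - x.1 * y.2.2))

lemma mat_br (x y : R × R × R) : mat (br x y) = mat x * mat y - mat y * mat x := by
  ext i j
  fin_cases i <;> fin_cases j <;> simp [mat, br, Matrix.mul_apply, Fin.sum_univ_two] <;> ring

/-- invariance in coordinates -/
def Inv3 (σ : R →ₐ[k] R[X]) (x : R × R × R) : Prop :=
  σ x.1 = C x.1 + X * C x.2.2 ∧ σ x.2.1 = C x.2.1 - 2 * X * C x.1 - X ^ 2 * C x.2.2 ∧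
    σ x.2.2 = C x.2.2

/-- all products of coordinates vanish -/
def Sq3 (x : R × R × R) : Prop :=
  x.1 * x.1 = 0 ∧ x.1 * x.2.1 = 0 ∧ x.1 * x.2.2 = 0 ∧ x.2.1 * x.2.1 = 0 ∧ x.2.1 * x.2.2 = 0 ∧
    x.2.2 * x.2.2 = 0

/-- iterated brackets -/
def Good3 (σ : R →ₐ[k] R[X]) : ℕ → R × R × R → Prop
  | 0, x => Inv3 σ x ∧ Sq3 x
  | n + 1, x => ∃ y z, Good3 σ n y ∧ Good3 σ n z ∧ x = br y z

lemma Inv3.br {σ : R →ₐ[k] R[X]} {x y : R × R × R} (hx : Inv3 σ x) (hy : Inv3 σ y) :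
    Inv3 σ (br x y) := by
  obtain ⟨a1, a2, a3⟩ := hx
  obtain ⟨b1, b2, b3⟩ := hy
  refine ⟨?_, ?_, ?_⟩ <;>
    simp only [Rz.br, map_sub, map_mul, map_ofNat, a1, a2, a3, b1, b2, b3] <;> ring

lemma Sq3.br {x : R × R × R} (hx : Sq3 x) (y : R × R × R) : Sq3 (br x y) := by
  obtain ⟨h1, h2, h3, h4, h5, h6⟩ := hx
  refine ⟨?_, ?_, ?_, ?_, ?_, ?_⟩ <;> simp only [Rz.br] <;> grind

lemma Good3.spec {σ : R →ₐ[k] R[X]} : ∀ {n : ℕ} {x : R × R × R}, Good3 σ n x → Inv3 σ x ∧ Sq3 x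
  | 0, _, h => h
  | _ + 1, _, ⟨_, z, hy, hz, e⟩ => e ▸ ⟨hy.spec.1.br hz.spec.1, hy.spec.2.br z⟩

/-- image under a ring map -/
def map3 (π : R →+* S) (x : R × R × R) : S × S × S := (π x.1, π x.2.1, π x.2.2)

lemma Inv3.map {σ : R →ₐ[k] R[X]} {τ : S →ₐ[k] S[X]} {π : R →+* S}
    (hπ : ∀ a, τ (π a) = (σ a).map π) {x : R × R × R} (hx : Inv3 σ x) : Inv3 τ (map3 π x) := by
  obtain ⟨a1, a2, a3⟩ := hx
  refine ⟨?_, ?_, ?_⟩ <;> simp [map3, hπ, a1, a2, a3]

lemma map3_br (π : R →+* S) (x y : R × R × R) : map3 π (br x y) = br (map3 π x) (map3 π y) := by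
  simp [map3, br, map_ofNat]

lemma Good3.map {σ : R →ₐ[k] R[X]} {τ : S →ₐ[k] S[X]} {π : R →+* S}
    (hπ : ∀ a, τ (π a) = (σ a).map π) :
    ∀ {n : ℕ} {x : R × R × R}, Good3 σ n x → Good3 τ n (map3 π x)
  | 0, _, ⟨h, h1, h2, h3, h4, h5, h6⟩ => by
    refine ⟨h.map hπ, ?_, ?_, ?_, ?_, ?_, ?_⟩ <;>
      simp only [map3, ← map_mul, h1, h2, h3, h4, h5, h6, map_zero]
  | _ + 1, _, ⟨y, z, hy, hz, e⟩ => ⟨_, _, hy.map hπ, hz.map hπ, by rw [e, map3_br]⟩

lemma Sq3.sand {x : R × R × R} (hx : Sq3 x) (r : Matrix (Fin 2) (Fin 2) R) :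
    mat x * r * mat x = 0 := by
  obtain ⟨h1, h2, h3, h4, h5, h6⟩ := hx
  refine sandwich (fun i j k l => ?_) r
  fin_cases i <;> fin_cases j <;> fin_cases k <;> fin_cases l <;> simp [mat] <;> grind

lemma Good3.mem {σ : R →ₐ[k] R[X]} (G : Subgroup (Matrix (Fin 2) (Fin 2) R)ˣ)
    (hG : ∀ x, Inv3 σ x → Sq3 x → ∀ g : (Matrix (Fin 2) (Fin 2) R)ˣ, g.val = 1 + mat x → g ∈ G) :
    ∀ {n : ℕ} {x : R × R × R}, Good3 σ n x →
      ∃ g : G, g ∈ derivedSeries G n ∧ g.val.val = 1 + mat x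
  | 0, x, h => ⟨⟨unit1 h.2.sand, hG x h.1 h.2 _ rfl⟩, Subgroup.mem_top _, rfl⟩
  | n + 1, _, ⟨y, z, hy, hz, e⟩ => by
    obtain ⟨g, hg, eg⟩ := hy.mem G hG
    obtain ⟨h, hh, eh⟩ := hz.mem G hG
    refine ⟨⁅g, h⁆, Subgroup.commutator_mem_commutator hg hh, ?_⟩
    rw [e, mat_br]
    exact comm_val hy.spec.2.sand hz.spec.2.sand eg eh

variable {K : Type} [CommRing K] [Algebra k K]

/-- the pairing is a multiple of the invariant tensor -/
def Pair (E : R →ₗ[k] K) (α : K) (x y : R × R × R) : Prop :=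
  E (x.1 * y.1) = α ∧ E (x.1 * y.2.1) = 0 ∧ E (x.1 * y.2.2) = 0 ∧
  E (x.2.1 * y.1) = 0 ∧ E (x.2.1 * y.2.1) = 0 ∧ E (x.2.1 * y.2.2) = 2 * α ∧
  E (x.2.2 * y.1) = 0 ∧ E (x.2.2 * y.2.1) = 2 * α ∧ E (x.2.2 * y.2.2) = 0

lemma lin_two (E : R →ₗ[k] K) (a : R) : E (2 * a) = 2 * E a := by
  rw [two_mul, map_add, two_mul]

lemma tens4 (E : R →ₗ[k] K) (a b c d e f g h : R) :
    tens E E ((iL k R R a * iR k R R b - iL k R R c * iR k R R d) *
      (iL k R R e * iR k R R f - iL k R R g * iR k R R h)) =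
      E (a * e) * E (b * f) - E (a * g) * E (b * h) - E (c * e) * E (d * f) +
        E (c * g) * E (d * h) := by
  simp only [← tens_mul, ← map_sub, ← map_add, map_mul]
  congr 1
  ring

lemma Pair.step {E : R →ₗ[k] K} {α : K} {x y : R × R × R} (h : Pair E α x y) :
    Pair (tens E E) (-8 * α ^ 2) (br (map3 (iL k R R) x) (map3 (iR k R R) x))
      (br (map3 (iL k R R) y) (map3 (iR k R R) y)) := by
  obtain ⟨h1, h2, h3, h4, h5, h6, h7, h8, h9⟩ := h
  refine ⟨?_, ?_, ?_, ?_, ?_, ?_, ?_, ?_, ?_⟩ <;>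
    simp only [br, map3, mul_assoc, mul_left_comm _ (2 : R ⊗[k] R), lin_two] <;>
    simp only [tens4, h1, h2, h3, h4, h5, h6, h7, h8, h9] <;> ring

end Defs

section Data

variable (K : Type) [Field K]

open TrivSqZeroExt

/-- first-order part of the adjoint action -/
def D31 : (Fin 3 → K) →ₗ[K] (Fin 3 → K) := Matrix.toLin' !![0, -2, 0; 0, 0, 0; 1, 0, 0]

/-- second-order part of the adjoint action -/
def D32 : (Fin 3 → K) →ₗ[K] (Fin 3 → K) := Matrix.toLin' !![0, 0, 0; 0, 0, 0; 0, -1, 0]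

lemma D31_apply (v : Fin 3 → K) : D31 K v = ![-2 * v 1, 0, v 0] := by
  ext i
  fin_cases i <;> simp [D31, Matrix.mulVec, dotProduct, Fin.sum_univ_three]

lemma D32_apply (v : Fin 3 → K) : D32 K v = ![0, 0, -v 1] := by
  ext i
  fin_cases i <;> simp [D32, Matrix.mulVec, dotProduct, Fin.sum_univ_three]

/-- the generic traceless matrix -/
def x3 : SZ K 3 × SZ K 3 × SZ K 3 := (inr ![1, 0, 0], inr ![0, 1, 0], inr ![0, 0, 1])

lemma x3_good : Good3 (bσ (D31 K) (D32 K)) 0 (x3 K) := by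
  have z : (![0, 0, 0] : Fin 3 → K) = 0 := by
    ext i
    fin_cases i <;> rfl
  refine ⟨⟨?_, ?_, ?_⟩, ?_, ?_, ?_, ?_, ?_, ?_⟩
  · simp [x3, bσ_inr, D31_apply, D32_apply, z]
  · have e1 : (inr ![-2, 0, 0] : SZ K 3) = -(inr ![1, 0, 0] + inr ![1, 0, 0]) := by
      rw [← inr_add, ← inr_neg]
      congr 1
      ext i
      fin_cases i <;> simp
      ring
    have e2 : (inr ![0, 0, -1] : SZ K 3) = -inr ![0, 0, 1] := by
      rw [← inr_neg]
      congr 1
      ext i
      fin_cases i <;> simp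
    simp only [x3, bσ_inr, D31_apply, D32_apply, Matrix.cons_val_one, Matrix.cons_val_zero,
      mul_one, e1, e2, map_neg, map_add]
    ring
  · simp [x3, bσ_inr, D31_apply, D32_apply, z]
  all_goals exact inr_mul_inr _ _ _

theorem data3 (h2 : (2 : K) ≠ 0) (n : ℕ) :
    ∃ (R : Type) (_ : CommRing R) (_ : Algebra K R), Module.Finite K R ∧
      ∃ (σ : R →ₐ[K] R[X]) (E : R →ₗ[K] K) (x y : R × R × R) (α : K),
        InvF σ E ∧ Good3 σ n x ∧ Inv3 σ y ∧ α ≠ 0 ∧ Pair E α x y := by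
  induction n with
  | zero =>
    have := SZ_finite (k := K) (n := 3)
    refine ⟨SZ K 3 ⊗[K] SZ K 3, inferInstance, inferInstance, inferInstance,
      tσ (bσ (D31 K) (D32 K)) (bσ (D31 K) (D32 K)),
      tens (co K 0) (co K 0) + (tens (co K 1) (co K 2) + tens (co K 1) (co K 2)) +
        (tens (co K 2) (co K 1) + tens (co K 2) (co K 1)),
      map3 (iL K _ _) (x3 K), map3 (iR K _ _) (x3 K), 1, ?_,
      (x3_good K).map (tσ_iL _ _), (x3_good K).spec.1.map (tσ_iR _ _), one_ne_zero, ?_⟩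
    · intro r
      induction r with
      | zero => simp [hat_zero]
      | tmul a b =>
        simp only [add_hat, hat_tσ, hat_bσ, D31_apply, D32_apply, LinearMap.add_apply, tens_tmul,
          co_apply, Algebra.algebraMap_self, RingHom.id_apply]
        simp [map_ofNat]
        ring
      | add x y hx hy => rw [map_add, hat_add, hx, hy, map_add, map_add]
    · refine ⟨?_, ?_, ?_, ?_, ?_, ?_, ?_, ?_, ?_⟩ <;>
        simp [map3, x3, tens_mul, co_apply] <;> ring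
  | succ n ih =>
    obtain ⟨R, _, _, _, σ, E, x, y, α, hE, hx, hy, hα, hP⟩ := ih
    refine ⟨R ⊗[K] R, inferInstance, inferInstance, inferInstance, tσ σ σ, tens E E, _, _, _,
      hE.tens hE, ⟨_, _, hx.map (tσ_iL _ _), hx.map (tσ_iR _ _), rfl⟩,
      (hy.map (tσ_iL _ _)).br (hy.map (tσ_iR _ _)), ?_, hP.step⟩
    have h8 : (-8 : K) = -2 ^ 3 := by norm_num
    rw [h8]
    exact mul_ne_zero (neg_ne_zero.mpr (pow_ne_zero _ h2)) (pow_ne_zero _ hα)

end Data

section Grp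

variable {K : Type} [Field K] {R : Type} [CommRing R] [Algebra K R]

open Matrix

/-- invariant matrices -/
def InvM (σ : R →ₐ[K] R[X]) (z : Matrix (Fin 2) (Fin 2) R) : Prop :=
  σ (z 0 0) = C (z 0 0) + X * C (z 1 0) ∧
    σ (z 0 1) = C (z 0 1) + X * (C (z 1 1) - C (z 0 0)) - X ^ 2 * C (z 1 0) ∧
    σ (z 1 0) = C (z 1 0) ∧ σ (z 1 1) = C (z 1 1) - X * C (z 1 0)

variable {σ : R →ₐ[K] R[X]} {E : R →ₗ[K] K}

lemma InvM.mul {z w : Matrix (Fin 2) (Fin 2) R} (hz : InvM σ z) (hw : InvM σ w) :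
    InvM σ (z * w) := by
  obtain ⟨a1, a2, a3, a4⟩ := hz
  obtain ⟨b1, b2, b3, b4⟩ := hw
  refine ⟨?_, ?_, ?_, ?_⟩ <;>
    simp only [mul_apply, Fin.sum_univ_two, map_add, map_mul, a1, a2, a3, a4, b1, b2, b3, b4] <;>
    ring

lemma InvM.add {z w : Matrix (Fin 2) (Fin 2) R} (hz : InvM σ z) (hw : InvM σ w) :
    InvM σ (z + w) := by
  obtain ⟨a1, a2, a3, a4⟩ := hz
  obtain ⟨b1, b2, b3, b4⟩ := hw
  refine ⟨?_, ?_, ?_, ?_⟩ <;>
    simp only [Matrix.add_apply, map_add, a1, a2, a3, a4, b1, b2, b3, b4] <;> ring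

lemma InvM.smul {z : Matrix (Fin 2) (Fin 2) R} (hz : InvM σ z) {s : R} (hs : σ s = C s) :
    InvM σ (s • z) := by
  obtain ⟨a1, a2, a3, a4⟩ := hz
  refine ⟨?_, ?_, ?_, ?_⟩ <;>
    simp only [Matrix.smul_apply, smul_eq_mul, map_mul, a1, a2, a3, a4, hs] <;> ring

lemma InvM.one : InvM σ 1 := by
  refine ⟨?_, ?_, ?_, ?_⟩ <;> simp

lemma InvM.trace {z : Matrix (Fin 2) (Fin 2) R} (hz : InvM σ z) : σ z.trace = C z.trace := by
  obtain ⟨a1, _, _, a4⟩ := hz
  simp only [trace_fin_two, map_add, a1, a4]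
  ring

lemma Inv3.invM {x : R × R × R} (hx : Inv3 σ x) : InvM σ (mat x) := by
  obtain ⟨a1, a2, a3⟩ := hx
  refine ⟨?_, ?_, ?_, ?_⟩ <;> simp [mat, a1, a2, a3] <;> ring

lemma InvM.inv3 {z : Matrix (Fin 2) (Fin 2) R} (hz : InvM σ z) :
    Inv3 σ (z 0 0 - z 1 1, 2 * z 0 1, 2 * z 1 0) := by
  obtain ⟨a1, a2, a3, a4⟩ := hz
  refine ⟨?_, ?_, ?_⟩ <;> simp only [map_sub, map_mul, map_ofNat, a1, a2, a3, a4] <;> ring

/-- the power `(h ^ 2 + b c) ^ ((p - 1) / 2)` pairs to zero with every invariant -/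
lemma disc_pow {p l : ℕ} (hp : p = 2 * (l + 1) + 1) [CharP K p] (hE : InvF σ E) {x : R × R × R}
    (hx : Inv3 σ x) {w : R} (hw : σ w = C w) :
    E ((x.1 ^ 2 + x.2.1 * x.2.2) ^ (l + 1) * w) = 0 := by
  obtain ⟨h, b, c⟩ := x
  obtain ⟨a1, a2, a3⟩ := hx
  simp only at a1 a2 a3 ⊢
  have hp0 : (p : R) = 0 := by
    rw [← map_natCast (algebraMap K R), CharP.cast_eq_zero, map_zero]
  have key : ∀ a j : ℕ, a + j = l → E ((h ^ 2) ^ a * (b * c) ^ j * ((h ^ 2 + b * c) * w)) = 0 := by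
    intro a j haj
    have h1 := hE.coeff (h ^ (2 * a + 1) * b ^ (j + 1) * c ^ j * w) one_ne_zero
    have h2 : (σ (h ^ (2 * a + 1) * b ^ (j + 1) * c ^ j * w)).coeff 1 =
        ((2 * (j + 1) : ℕ) : K) • -((h ^ 2) ^ a * (b * c) ^ j * ((h ^ 2 + b * c) * w)) := by
      have e : ∀ f : R[X], f.coeff 1 = (derivative f).eval 0 := fun f => by
        rw [← coeff_zero_eq_eval_zero, coeff_derivative]
        simp
      rw [e]
      simp only [map_mul, map_pow, a1, a2, a3, hw]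
      simp only [derivative_mul, derivative_pow, derivative_C, derivative_add, derivative_sub,
        derivative_X, derivative_ofNat, eval_mul, eval_add, eval_sub, eval_pow, eval_C, eval_X,
        eval_zero, eval_one, eval_ofNat, Nat.add_sub_cancel]
      rw [Nat.cast_smul_eq_nsmul, nsmul_eq_mul]
      have hp1 : ((2 * a + 1 : ℕ) : R) + ((2 * (j + 1) : ℕ) : R) = 0 := by
        rw [← Nat.cast_add, ← hp0]
        congr 1
        omega
      push_cast at hp1 ⊢
      linear_combination (h ^ (2 * a) * b ^ (j + 1) * c ^ (j + 1) * w) * hp1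
    rw [h2, map_smul, map_neg, smul_eq_mul, mul_neg, neg_eq_zero, mul_eq_zero] at h1
    refine h1.resolve_left fun h0 => ?_
    rw [CharP.cast_eq_zero_iff K p] at h0
    have := Nat.le_of_dvd (by omega) h0
    omega
  rw [pow_succ, mul_assoc, add_pow, Finset.sum_mul, map_sum]
  refine Finset.sum_eq_zero fun a ha => ?_
  rw [Finset.mem_range] at ha
  rw [mul_right_comm, mul_comm, ← nsmul_eq_mul, map_nsmul, key a (l - a) (by omega), nsmul_zero]

lemma mat_pow (x : R × R × R) (l : ℕ) :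
    mat x ^ (2 * l + 1) = (x.1 ^ 2 + x.2.1 * x.2.2) ^ l • mat x := by
  have h : mat x ^ 2 = (x.1 ^ 2 + x.2.1 * x.2.2) • (1 : Matrix (Fin 2) (Fin 2) R) := by
    ext i j
    fin_cases i <;> fin_cases j <;> simp [mat, pow_two, mul_apply, Fin.sum_univ_two] <;> ring
  rw [pow_succ, pow_mul, h, _root_.smul_pow, one_pow, smul_mul_assoc, one_mul]

lemma two_smul_eq (z : Matrix (Fin 2) (Fin 2) R) :
    (2 : R) • z = z.trace • (1 : Matrix (Fin 2) (Fin 2) R) +
      mat (z 0 0 - z 1 1, 2 * z 0 1, 2 * z 1 0) := by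
  ext i j
  fin_cases i <;> fin_cases j <;> simp [mat, trace_fin_two] <;> ring

lemma trace_mat (x : R × R × R) : (mat x).trace = 0 := by
  simp [mat, trace_fin_two]

theorem NS_big {p : ℕ} (hp : p.Prime) (h5 : 5 ≤ p) (f : ℕ) : NS p f := by
  have : Fact p.Prime := ⟨hp⟩
  have hne : ∀ m : ℕ, 0 < m → m < p → (m : ZMod p) ≠ 0 := fun m h0 hm h => by
    rw [ZMod.natCast_eq_zero_iff] at h
    have := Nat.le_of_dvd h0 h
    omega
  have h2 : (2 : ZMod p) ≠ 0 := by exact_mod_cast hne 2 (by omega) (by omega)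
  have h3 : (3 : ZMod p) ≠ 0 := by exact_mod_cast hne 3 (by omega) (by omega)
  obtain ⟨R, _, _, _, σ, E, x, y, α, hE, hx, hy, hα, hP⟩ := data3 (ZMod p) h2 f
  have : Finite R := Module.finite_of_finite (ZMod p)
  let G : Subgroup (Matrix (Fin 2) (Fin 2) R)ˣ := toSub
    { carrier := {g | InvM σ g.val}
      mul_mem' := fun ha hb => InvM.mul ha hb
      one_mem' := InvM.one }
  have hG : ∀ g : G, InvM σ g.val.val := fun g => g.2
  let M : Subgroup G := toSub
    { carrier := {g | ∀ z, InvM σ z → z.trace = 0 → E (g.val.val * z).trace = 0}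
      mul_mem' := by
        intro g g' hg hg' z hz hz0
        have hw : InvM σ (g'.val.val * z) := (hG g').mul hz
        have e1 := hg _ hw.inv3.invM (trace_mat _)
        have e2 := hg' _ (hz.smul (hG g).trace) (by rw [trace_smul, hz0, smul_zero])
        have e3 := congrArg (fun m => E (g.val.val * m).trace) (two_smul_eq (g'.val.val * z))
        simp only [mul_add, mul_smul_comm, trace_add, trace_smul, map_add, e1, mul_one,
          smul_eq_mul, add_zero, lin_two] at e3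
        rw [mul_smul_comm, trace_smul, smul_eq_mul, mul_comm] at e2
        rw [e2, mul_eq_zero] at e3
        change E (g.val.val * g'.val.val * z).trace = 0
        rw [mul_assoc]
        exact e3.resolve_left h2
      one_mem' := by
        intro z _ hz0
        change E (1 * z).trace = 0
        rw [one_mul, hz0, map_zero] }
  have hM : ∀ g : G, g ∈ M ↔ ∀ z, InvM σ z → z.trace = 0 → E (g.val.val * z).trace = 0 :=
    fun g => Iff.rfl
  have : M.Normal := ⟨by
    intro g hg u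
    rw [hM] at hg ⊢
    intro z hz hz0
    have e := hg (u⁻¹.val.val * z * u.val.val) (((hG _).mul hz).mul (hG _)) (by
      rw [trace_mul_cycle]
      change ((u * u⁻¹).val.val * z).trace = 0
      rw [mul_inv_cancel]
      change (1 * z).trace = 0
      rw [one_mul, hz0])
    change E (u.val.val * g.val.val * u⁻¹.val.val * z).trace = 0
    rw [← e, mul_assoc, mul_assoc, trace_mul_comm]
    simp only [mul_assoc]⟩
  obtain ⟨g, hg, eg⟩ := hx.mem G (fun x hx _ g e => by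
    change InvM σ g.val
    rw [e]
    exact InvM.one.add hx.invM)
  refine NS_of_quot G M (fun g => ?_) g hg (fun h => ?_)
  · rw [hM]
    intro z hz hz0
    obtain ⟨l, hl⟩ : ∃ l, p = 2 * (l + 1) + 1 := by
      obtain ⟨m, hm⟩ := hp.odd_of_ne_two (by omega)
      exact ⟨m - 1, by omega⟩
    change E (g.val.val ^ p * z).trace = 0
    set a := g.val.val
    have ha : InvM σ a := hG g
    have hp0 : ((p : ℕ) : Matrix (Fin 2) (Fin 2) R) = 0 := by
      rw [← map_natCast (algebraMap (ZMod p) (Matrix (Fin 2) (Fin 2) R)), ZMod.natCast_self,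
        map_zero]
    obtain ⟨r, hr⟩ := Commute.exists_add_pow_prime_eq hp
      (((Commute.one_left (mat (a 0 0 - a 1 1, 2 * a 0 1, 2 * a 1 0)))).smul_left a.trace)
    rw [← two_smul_eq, hp0, zero_mul, zero_mul, zero_mul, add_zero, _root_.smul_pow,
      _root_.smul_pow, one_pow] at hr
    have e3 := congrArg (fun m => E (m * z).trace) hr
    have e4 := disc_pow hl hE ha.inv3 (ha.inv3.invM.mul hz).trace
    have e5 := mat_pow (a 0 0 - a 1 1, 2 * a 0 1, 2 * a 1 0) (l + 1)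
    rw [← hl] at e5
    simp only [e5, add_mul, smul_mul_assoc, trace_add, trace_smul, one_mul, hz0, smul_eq_mul,
      mul_zero, zero_add, e4] at e3
    have e6 : ((2 : R) ^ p) = ((2 ^ p : ℕ) : R) := by simp
    rw [e6, ← nsmul_eq_mul, map_nsmul, nsmul_eq_mul, mul_eq_zero] at e3
    refine e3.resolve_left ?_
    push_cast
    exact pow_ne_zero _ h2
  · rw [hM] at h
    have e := h _ hy.invM (trace_mat _)
    obtain ⟨p1, _, _, _, _, p6, _, p8, _⟩ := hP
    have e2 : (mat x * mat y).trace = 2 * (x.1 * y.1) + x.2.1 * y.2.2 + x.2.2 * y.2.1 := by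
      simp [mat, trace_fin_two, mul_apply, Fin.sum_univ_two]
      ring
    rw [eg, add_mul, one_mul, trace_add, trace_mat, zero_add, e2, map_add, map_add, lin_two, p1,
      p6, p8] at e
    have e3 : (2 * 3 : ZMod p) * α = 0 := by linear_combination e
    exact mul_ne_zero (mul_ne_zero h2 h3) hα e3

theorem NS_nine (f : ℕ) : NS 9 f := by
  have h2 : (2 : ZMod 3) ≠ 0 := by decide
  obtain ⟨R, _, _, _, σ, E, x, y, α, hE, hx, hy, hα, hP⟩ := data3 (ZMod 3) h2 f
  have : Finite R := Module.finite_of_finite (ZMod 3)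
  have hx0 : x.1 ≠ 0 := fun h => hα (by rw [← hP.1, h, zero_mul, map_zero])
  have : Nontrivial R := nontrivial_of_ne _ _ hx0
  have : CharP R 3 := charP_of_injective_algebraMap (algebraMap (ZMod 3) R).injective 3
  let G : Subgroup (Matrix (Fin 2) (Fin 2) R)ˣ :=
    (Units.map ((frobenius R 3).mapMatrix (m := Fin 2)).toMonoidHom).ker
  have hG : ∀ g : (Matrix (Fin 2) (Fin 2) R)ˣ, g ∈ G ↔ ∀ i j, (g.val - 1) i j ^ 3 = 0 := by
    intro g
    rw [MonoidHom.mem_ker, Units.ext_iff]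
    change (frobenius R 3).mapMatrix g.val = 1 ↔ _
    conv_lhs => rw [← map_one ((frobenius R 3).mapMatrix (m := Fin 2)), ← sub_eq_zero, ← map_sub,
      ← Matrix.ext_iff]
    rfl
  obtain ⟨g, hg, eg⟩ := hx.mem G (fun x _ hx g e => by
    rw [hG, e, add_sub_cancel_left]
    obtain ⟨h1, h2, h3, h4, h5, h6⟩ := hx
    intro i j
    fin_cases i <;> fin_cases j <;> simp [mat] <;> grind)
  refine NS_of_quot G ⊥ (fun g => ?_) g hg (fun h => ?_)
  · rw [Subgroup.mem_bot]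
    ext1
    ext1
    change g.val.val ^ 9 = 1
    have h := (hG g.val).mp g.2
    set a := g.val.val - 1 with ha
    have e0 : g.val.val = 1 + a := by rw [ha, add_sub_cancel]
    have e1 : a ^ 2 = a.trace • a - a.det • (1 : Matrix (Fin 2) (Fin 2) R) := by
      ext i j
      fin_cases i <;> fin_cases j <;>
        simp [pow_two, mul_apply, Fin.sum_univ_two, trace_fin_two, det_fin_two] <;> ring
    have e2 : a.trace ^ 3 = 0 := by
      rw [trace_fin_two, add_pow_char, h, h, add_zero]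
    have e3 : a.det ^ 3 = 0 := by
      rw [det_fin_two, sub_pow_char, mul_pow, mul_pow, h 0 0, h 0 1, zero_mul, zero_mul, sub_zero]
    have e4 : (a ^ 2) ^ 3 = 0 := by
      rw [e1, sub_pow_char_of_commute _ (((Commute.one_right a).smul_left _).smul_right _),
        _root_.smul_pow, _root_.smul_pow, e2, e3, zero_smul, zero_smul, sub_zero]
    have e5 : a ^ 3 ^ 2 = 0 := by
      rw [show 3 ^ 2 = 2 * 3 + 3 by norm_num, pow_add, pow_mul, e4, zero_mul]
    rw [e0, show 9 = 3 ^ 2 by norm_num, add_pow_char_pow_of_commute _ _ (Commute.one_left a), e5,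
      one_pow, add_zero]
  · rw [Subgroup.mem_bot] at h
    rw [h] at eg
    change 1 = 1 + mat x at eg
    have := congrFun (congrFun (left_eq_add.mp eg) 0) 0
    exact hx0 this

end Grp

end Pool.Agent.P.MP_9155ad_al.Rz
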