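import Mathlib

/-!
Reduction: from a finite group `P` of exponent `p ^ m` to a `p`-generated finite `p`-group with a
splitting automorphism of order `p ^ (m + 1)` and derived length at least that of `P`.
-/

namespace Pool.Agent.P.MP_9155ad_al.Rz

open SemidirectProduct

/-- the conclusion of the main theorem for given parameters -/
def Ex (d p n f : ℕ) : Prop :=
  ∃ (G : Type) (_ : Group G), Finite G ∧ IsPGroup p G ∧ Group.IsNilpotent G ∧
    (∃ S : Finset G, S.card ≤ d ∧ Subgroup.closure (S : Set G) = ⊤) ∧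
    (∃ φ : MulAut G, orderOf φ = p ^ n ∧
      ∀ x : G, ((List.range (p ^ n)).map (fun i => (φ ^ i) x)).prod = 1) ∧
    derivedSeries G f ≠ ⊥

lemma prod_conj' {H : Type} [Group H] (τ x : H) (m : ℕ) :
    ((List.range m).map (fun i => τ ^ i * x * (τ ^ i)⁻¹)).prod = (x * τ) ^ m * (τ ^ m)⁻¹ := by
  induction m with
  | zero => simp
  | succ m ih =>
    rw [List.range_succ, List.map_append, List.prod_append, ih]
    simp only [List.map_cons, List.map_nil, List.prod_cons, List.prod_nil, mul_one]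
    rw [pow_succ, pow_succ' τ]
    group

section Red

variable {A : Type} [CommRing A] {P : Type} [Group P]

/-- permutations of `A` act on the functions `(A → P) → P` -/
def actB (A P : Type) [Group P] : Equiv.Perm A →* MulAut ((A → P) → P) where
  toFun k :=
    { toFun := fun β ξ => β (ξ ∘ k)
      invFun := fun β ξ => β (ξ ∘ k.symm)
      left_inv := fun β => by
        funext ξ
        simp [Function.comp_assoc]
      right_inv := fun β => by
        funext ξ
        simp [Function.comp_assoc]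
      map_mul' := fun _ _ => rfl }
  map_one' := rfl
  map_mul' _ _ := rfl

/-- the ambient group -/
abbrev HH (A P : Type) [Group P] : Type := ((A → P) → P) ⋊[actB A P] Equiv.Perm A

/-- evaluation at a point -/
def ev (P : Type) (a : A) : (A → P) → P := fun ξ => ξ a

omit [CommRing A] in
lemma act_ev (k : Equiv.Perm A) (a : A) : actB A P k (ev P a) = ev P (k a) := rfl

omit [CommRing A] in
lemma conj_inl (k : Equiv.Perm A) (β : (A → P) → P) :
    (inr k * inl β * (inr k)⁻¹ : HH A P) = inl (actB A P k β) := by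
  rw [inl_aut, map_inv]

/-- the generators -/
def gens (P : Type) [Group P] (p : ℕ) (z : Aˣ) : Set (HH A P) :=
  insert (inl (ev P 0)) ((fun j : ℕ => inr (Equiv.addLeft ((z : A) ^ j))) '' Set.Iio (p - 1))

/-- the group -/
def GG (P : Type) [Group P] (p : ℕ) (z : Aˣ) : Subgroup (HH A P) := Subgroup.closure (gens P p z)

variable {p : ℕ} {z : Aˣ}

lemma tr_mem (hgen : ∀ a : A, a ∈ AddSubgroup.closure ((fun j : ℕ => (z : A) ^ j) '' Set.Iio (p - 1)))
    (a : A) : (inr (Equiv.addLeft a) : HH A P) ∈ GG P p z := by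
  induction hgen a using AddSubgroup.closure_induction with
  | mem x hx =>
    obtain ⟨j, hj, rfl⟩ := hx
    exact Subgroup.subset_closure (Or.inr ⟨j, hj, rfl⟩)
  | zero =>
    rw [Equiv.addLeft_zero, map_one]
    exact one_mem _
  | add x y _ _ hx hy =>
    rw [Equiv.addLeft_add, map_mul]
    exact mul_mem hx hy
  | neg x _ hx =>
    have : Equiv.addLeft (-x) = (Equiv.addLeft x)⁻¹ := by
      ext y
      simp
    rw [this, map_inv]
    exact inv_mem hx

lemma ev_mem (hgen : ∀ a : A, a ∈ AddSubgroup.closure ((fun j : ℕ => (z : A) ^ j) '' Set.Iio (p - 1)))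
    (a : A) : (inl (ev P a) : HH A P) ∈ GG P p z := by
  have h0 : (inl (ev P 0) : HH A P) ∈ GG P p z := Subgroup.subset_closure (Or.inl rfl)
  have h := mul_mem (mul_mem (tr_mem (P := P) hgen a) h0) (inv_mem (tr_mem (P := P) hgen a))
  rw [conj_inl, act_ev] at h
  simpa using h

lemma right_tr {g : HH A P} (hg : g ∈ GG P p z) : ∃ a : A, rightHom g = Equiv.addLeft a := by
  induction hg using Subgroup.closure_induction with
  | mem x hx =>
    rcases hx with rfl | ⟨j, _, rfl⟩
    · exact ⟨0, by simp⟩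
    · exact ⟨(z : A) ^ j, by simp⟩
  | one => exact ⟨0, by simp⟩
  | mul x y _ _ hx hy =>
    obtain ⟨a, ha⟩ := hx
    obtain ⟨b, hb⟩ := hy
    exact ⟨a + b, by rw [map_mul, ha, hb, Equiv.addLeft_add]⟩
  | inv x _ hx =>
    obtain ⟨a, ha⟩ := hx
    refine ⟨-a, ?_⟩
    rw [map_inv, ha]
    ext y
    simp

lemma conj_mem
    (hgen : ∀ a : A, a ∈ AddSubgroup.closure ((fun j : ℕ => (z : A) ^ j) '' Set.Iio (p - 1)))
    (w : Aˣ) {g : HH A P} (hg : g ∈ GG P p z) :
    inr (Units.mulLeft w) * g * (inr (Units.mulLeft w))⁻¹ ∈ GG P p z := by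
  induction hg using Subgroup.closure_induction with
  | mem x hx =>
    rcases hx with rfl | ⟨j, _, rfl⟩
    · rw [conj_inl, act_ev]
      exact ev_mem hgen _
    · have : (inr (Units.mulLeft w) * inr (Equiv.addLeft ((z : A) ^ j)) *
          (inr (Units.mulLeft w))⁻¹ : HH A P) = inr (Equiv.addLeft ((w : A) * (z : A) ^ j)) := by
        rw [← map_inv, ← map_mul, ← map_mul]
        congr 1
        ext y
        simp [mul_add]
      rw [this]
      exact tr_mem hgen _
  | one => simp
  | mul x y _ _ hx hy =>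
    have := mul_mem hx hy
    convert this using 1
    group
  | inv x _ hx =>
    have := inv_mem hx
    convert this using 1
    group

lemma mul_mem_normalizer
    (hgen : ∀ a : A, a ∈ AddSubgroup.closure ((fun j : ℕ => (z : A) ^ j) '' Set.Iio (p - 1))) :
    (inr (Units.mulLeft z) : HH A P) ∈ Subgroup.normalizer (GG P p z : Set (HH A P)) := by
  rw [Subgroup.mem_normalizer_iff]
  intro h
  refine ⟨fun hh => conj_mem hgen z hh, fun hh => ?_⟩
  have h1 := conj_mem hgen z⁻¹ hh
  have h2 : Units.mulLeft z⁻¹ = (Units.mulLeft z)⁻¹ := by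
    ext y
    simp
  rw [h2, map_inv] at h1
  convert h1 using 1
  group

lemma aff_pow (a : A) (n : ℕ) (y : A) :
    ((Equiv.addLeft a * Units.mulLeft z) ^ n) y =
      (z : A) ^ n * y + (∑ i ∈ Finset.range n, (z : A) ^ i) * a := by
  induction n with
  | zero => simp
  | succ n ih =>
    rw [pow_succ', Equiv.Perm.mul_apply, ih, Finset.sum_range_succ']
    simp only [Equiv.Perm.mul_apply, Units.mulLeft_apply, Equiv.coe_addLeft, pow_succ', pow_zero,
      ← Finset.mul_sum]
    ring

lemma z_pow (hz : ∑ i ∈ Finset.range p, (z : A) ^ i = 0) : (z : A) ^ p = 1 := by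
  have := geom_sum_mul (z : A) p
  rw [hz, zero_mul] at this
  exact (sub_eq_zero.mp this.symm)

lemma pow_eq_inl {g : HH A P} {n : ℕ} (h : rightHom g ^ n = 1) : ∃ β, g ^ n = inl β := by
  have : g ^ n ∈ (rightHom : HH A P →* Equiv.Perm A).ker := by
    rw [MonoidHom.mem_ker, map_pow, h]
  rw [← range_inl_eq_ker_rightHom] at this
  obtain ⟨β, hβ⟩ := this
  exact ⟨β, hβ.symm⟩

/-- the element inducing the automorphism -/
def tau (P : Type) [Group P] (z : Aˣ) : HH A P := inl (ev P 1) * inr (Units.mulLeft z)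

omit [CommRing A] in
lemma conj_inl' (g : HH A P) (β : (A → P) → P) :
    g * inl β * g⁻¹ = inl (g.left * actB A P g.right β * g.left⁻¹) := by
  conv_lhs => rw [← inl_left_mul_inr_right g]
  rw [map_mul, map_mul, ← conj_inl, map_inv]
  group

theorem core [Finite A] [Finite P] (hp : p.Prime) {d k m f : ℕ}
    (hz : ∑ i ∈ Finset.range p, (z : A) ^ i = 0) (hk : ((p ^ k : ℕ) : A) = 0)
    (hP : ∀ x : P, x ^ p ^ (m + 1) = 1) (hd : derivedSeries P f ≠ ⊥)
    (S : Set (HH A P)) (hS : S.ncard ≤ d) (G : Subgroup (HH A P)) (hGS : G = Subgroup.closure S)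
    (hG : ∀ g ∈ G, ∃ a : A, rightHom g = Equiv.addLeft a)
    (u : HH A P) (hu : u ∈ Subgroup.normalizer (G : Set (HH A P)))
    (hur : rightHom u = Units.mulLeft z)
    (hnc : ∃ g ∈ G, ∃ ξ, (u ^ p).left ξ ^ p ^ m ≠ 1 ∧ (u ^ p).left (ξ ∘ g.right) = 1)
    (hsur : ∃ ξ, ∀ y, ∃ β, inl β ∈ G ∧ β ξ = y) : Ex d p (m + 2) f := by
  classical
  have : Fact p.Prime := ⟨hp⟩
  have hfin : Finite (HH A P) := Finite.of_equiv _ equivProd.symm
  set φ : MulAut G := G.normalizerMonoidHom ⟨u, hu⟩ with hφ
  have hφv : ∀ (i : ℕ) (x : G), (((φ ^ i) x : G) : HH A P) = u ^ i * x * (u ^ i)⁻¹ := by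
    intro i x
    rw [hφ, ← map_pow]
    rfl
  have hinl : ∀ β : (A → P) → P, (inl β : HH A P) ^ p ^ (m + 1) = 1 := by
    intro β
    rw [← map_pow]
    have : β ^ p ^ (m + 1) = 1 := funext fun ξ => hP _
    rw [this, map_one]
  have hcp : ∀ g ∈ G, ∃ β, (g * u) ^ p = inl β := by
    intro g hg
    obtain ⟨a, ha⟩ := hG g hg
    apply pow_eq_inl
    rw [map_mul, ha, hur]
    ext y
    rw [aff_pow, hz, z_pow hz]
    simp
  have hc : ∀ g ∈ G, (g * u) ^ p ^ (m + 2) = 1 := by
    intro g hg
    obtain ⟨β, hβ⟩ := hcp g hg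
    rw [pow_succ' p, pow_mul, hβ, hinl]
  have hτ1 : u ^ p ^ (m + 2) = 1 := by simpa using hc 1 (one_mem _)
  have hpg : IsPGroup p G := by
    intro x
    obtain ⟨a, ha⟩ := hG x x.2
    have h1 : rightHom (x : HH A P) ^ p ^ k = 1 := by
      rw [ha]
      ext y
      simp only [Equiv.Perm.coe_pow, Equiv.coe_addLeft, add_left_iterate, nsmul_eq_mul, hk]
      simp
    obtain ⟨β, hβ⟩ := pow_eq_inl h1
    refine ⟨k + (m + 1), Subtype.ext ?_⟩
    change (x : HH A P) ^ p ^ (k + (m + 1)) = 1
    rw [pow_add, pow_mul, hβ, hinl]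
  refine ⟨G, inferInstance, inferInstance, hpg, hpg.isNilpotent, ?_, ⟨φ, ?_, ?_⟩, ?_⟩
  · have hfs : S.Finite := Set.toFinite _
    subst hGS
    refine ⟨hfs.toFinset.preimage Subtype.val Subtype.val_injective.injOn, ?_, ?_⟩
    · rw [Finset.card_preimage _ _ _]
      refine (Finset.card_filter_le _ _).trans ?_
      rwa [← Set.ncard_eq_toFinset_card _ hfs]
    · rw [Finset.coe_preimage, Set.Finite.coe_toFinset]
      exact Subgroup.closure_closure_coe_preimage
  · refine orderOf_eq_prime_pow (fun h => ?_) ?_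
    · obtain ⟨g, hg, ξ, h1, h2⟩ := hnc
      obtain ⟨β, hβ⟩ := hcp 1 (one_mem _)
      rw [one_mul] at hβ
      rw [hβ, left_inl] at h1 h2
      have h3 := hφv (p ^ (m + 1)) ⟨g, hg⟩
      rw [h, pow_succ' p, pow_mul, hβ, ← map_pow] at h3
      have h4 : g * inl (β ^ p ^ m) * g⁻¹ = inl (β ^ p ^ m) := by
        change g = _ at h3
        rw [mul_inv_eq_iff_eq_mul]
        exact eq_mul_inv_iff_mul_eq.mp h3
      rw [conj_inl'] at h4
      have h5 := congrFun (inl_injective h4) ξ
      change g.left ξ * β (ξ ∘ g.right) ^ p ^ m * (g.left ξ)⁻¹ = β ξ ^ p ^ m at h5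
      rw [h2, one_pow, mul_one, mul_inv_cancel] at h5
      exact h1 h5.symm
    · ext x : 2
      rw [hφv, hτ1]
      simp
  · intro x
    apply G.subtype_injective
    rw [map_list_prod, List.map_map, map_one]
    have h2 : (G.subtype ∘ fun i => (φ ^ i) x) =
        fun i => u ^ i * (x : HH A P) * (u ^ i)⁻¹ := funext fun i => hφv i x
    rw [h2, prod_conj', hτ1, hc _ x.2]
    simp
  · intro h
    apply hd
    obtain ⟨ξ0, hξ⟩ := hsur
    let F : Subgroup ((A → P) → P) := G.comap inl
    let π : F →* P := (Pi.evalMonoidHom (fun _ : A → P => P) ξ0).comp F.subtype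
    have hπ : Function.Surjective π := by
      intro y
      obtain ⟨β, hβ, rfl⟩ := hξ y
      exact ⟨⟨β, hβ⟩, rfl⟩
    let ι : F →* G := (inl.comp F.subtype).codRestrict _ (fun x => x.2)
    have hι : Function.Injective ι := by
      intro x y hxy
      exact Subtype.ext (inl_injective (congrArg Subtype.val hxy))
    have h1 := map_derivedSeries_le_derivedSeries ι f
    rw [h, le_bot_iff, Subgroup.map_eq_bot_iff_of_injective _ hι] at h1
    rw [← map_derivedSeries_eq hπ f, h1, Subgroup.map_bot]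

lemma pow_left_succ {u : HH A P} (hur : rightHom u = Units.mulLeft z) (n : ℕ) (ξ : A → P) :
    (u ^ (n + 1)).left ξ = (u ^ n).left ξ * u.left (fun y => ξ ((z : A) ^ n * y)) := by
  have hr : (u ^ n).right = Units.mulLeft z ^ n := by rw [← rightHom_eq_right, map_pow, hur]
  have hz : ⇑(Units.mulLeft z ^ n) = fun y => (z : A) ^ n * y := by
    funext y
    have := aff_pow (z := z) 0 n y
    simpa using this
  rw [pow_succ, mul_left, hr]
  change _ * u.left (ξ ∘ ⇑(Units.mulLeft z ^ n)) = _
  rw [hz]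
  rfl

lemma pow_left_one {u : HH A P} (hur : rightHom u = Units.mulLeft z) (ξ : A → P) (n : ℕ)
    (h : ∀ i < n, u.left (fun y => ξ ((z : A) ^ i * y)) = 1) : (u ^ n).left ξ = 1 := by
  induction n with
  | zero => rfl
  | succ n ih => rw [pow_left_succ hur, ih fun i hi => h i (by omega), h n (by omega), mul_one]

lemma pow_left_eq {u : HH A P} (hur : rightHom u = Units.mulLeft z) (ξ : A → P) (n : ℕ)
    (h : ∀ i, 0 < i → i ≤ n → u.left (fun y => ξ ((z : A) ^ i * y)) = 1) :
    (u ^ (n + 1)).left ξ = u.left ξ := by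
  induction n with
  | zero => rw [zero_add, pow_one]
  | succ n ih =>
    rw [pow_left_succ hur, ih fun i h0 hi => h i h0 (by omega), h (n + 1) (by omega) le_rfl,
      mul_one]

lemma fix_of_pow (hp : p.Prime) (hz : ∑ i ∈ Finset.range p, (z : A) ^ i = 0) {i : ℕ} (h0 : 0 < i)
    (hi : i < p) {y : A} (h : (z : A) ^ i * y = y) : (z : A) * y = y := by
  have h1 : Function.IsPeriodicPt (fun x => (z : A) * x) i y := by
    rw [Function.IsPeriodicPt, Function.IsFixedPt, mul_left_iterate]
    exact h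
  have h2 : Function.IsPeriodicPt (fun x => (z : A) * x) p y := by
    rw [Function.IsPeriodicPt, Function.IsFixedPt, mul_left_iterate, z_pow hz]
    exact one_mul y
  have h3 := h1.gcd h2
  have hco : Nat.Coprime i p := (Nat.coprime_of_lt_prime (by omega) hi hp).symm
  rw [hco] at h3
  exact h3

theorem reduction [Finite A] [Finite P] (hp : p.Prime) {k m f : ℕ}
    (hz : ∑ i ∈ Finset.range p, (z : A) ^ i = 0) (hk : ((p ^ k : ℕ) : A) = 0) (hp0 : (p : A) ≠ 0)
    (hgen : ∀ a : A, a ∈ AddSubgroup.closure ((fun j : ℕ => (z : A) ^ j) '' Set.Iio (p - 1)))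
    (ξ0 : A → P) (hξ : Function.Surjective ξ0) (hP : ∀ x : P, x ^ p ^ (m + 1) = 1)
    (s : P) (hs : s ^ p ^ m ≠ 1) (hd : derivedSeries P f ≠ ⊥) : Ex p p (m + 2) f := by
  classical
  have hur : rightHom (tau P z) = Units.mulLeft z := by simp [tau]
  have hl : (tau P z).left = ev P 1 := by simp [tau]
  refine core hp hz hk hP hd (gens P p z) ?_ (GG P p z) rfl (fun g => right_tr) (tau P z)
    (mul_mem (Subgroup.le_normalizer (ev_mem hgen 1)) (mul_mem_normalizer hgen)) hur
    ⟨_, tr_mem hgen 1, fun y => if y = 1 then s else 1, ?_, ?_⟩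
    ⟨ξ0, fun y => ?_⟩
  · refine (Set.ncard_insert_le _ _).trans ?_
    have h1 := Set.ncard_image_le (f := fun j : ℕ =>
      (inr (Equiv.addLeft ((z : A) ^ j)) : HH A P)) (Set.finite_Iio (p - 1))
    have h2 : (Set.Iio (p - 1)).ncard = p - 1 := by
      rw [← Finset.coe_range, Set.ncard_coe_finset, Finset.card_range]
    have := hp.pos
    omega
  · have h := pow_left_eq hur (fun y => if y = 1 then s else 1) (p - 1) (fun i h0 hi => by
      have hne : (z : A) ^ i * 1 ≠ 1 := by
        intro h1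
        have h2 := fix_of_pow hp hz h0 (by have := hp.pos; omega) h1
        rw [mul_one] at h2
        rw [h2] at hz
        exact hp0 (by simpa using hz)
      rw [hl]
      exact if_neg hne)
    rw [Nat.sub_add_cancel hp.pos] at h
    rw [h, hl]
    simpa [ev] using hs
  · refine pow_left_one hur _ _ fun i _ => ?_
    have hne : (z : A) ^ i ≠ 0 := by
      intro h0
      apply hp0
      have hu : IsUnit ((z : A) ^ i) := z.isUnit.pow i
      rw [h0] at hu
      have := isUnit_zero_iff.mp hu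
      rw [← mul_one (p : A), ← this, mul_zero]
    rw [hl]
    simp [ev, hne]
  · obtain ⟨a, rfl⟩ := hξ y
    exact ⟨ev P a, ev_mem hgen a, rfl⟩

end Red

end Pool.Agent.P.MP_9155ad_al.Rz
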