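import Pool.Agent.P.MP_9155ad_al.RRed

/-!
The reduction with `p - 1` generators for odd `p`, and the coefficient ring.
-/

namespace Pool.Agent.P.MP_9155ad_al.Rz

open SemidirectProduct

open Polynomial in
lemma exists_ring {p : ℕ} (hp : p.Prime) (k : ℕ) :
    ∃ (A : Type) (_ : CommRing A) (z : Aˣ), Finite A ∧
      ∑ i ∈ Finset.range p, (z : A) ^ i = 0 ∧ ((p ^ (k + 2) : ℕ) : A) = 0 ∧ (p : A) ≠ 0 ∧
      (∀ a : A, a ∈ AddSubgroup.closure ((fun j : ℕ => (z : A) ^ j) '' Set.Iio (p - 1))) ∧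
      (∀ a b : ℕ, a < p ^ (k + 2) → b < p ^ (k + 2) → (a : A) = b → a = b) ∧
      (p ≠ 2 → ∃ (r : A →+* ZMod p) (l : A →+ ZMod p), r z = 1 ∧ l 1 = 0 ∧
        ∀ y, l (z * y) = l y + r y) := by
  have h1 : 1 < p ^ (k + 2) := Nat.one_lt_pow (by omega) hp.one_lt
  have : Fact (1 < p ^ (k + 2)) := ⟨h1⟩
  have : NeZero (p ^ (k + 2)) := ⟨by omega⟩
  set Φ : (ZMod (p ^ (k + 2)))[X] := ∑ i ∈ Finset.range p, X ^ i with hΦ
  have hm : Φ.Monic := monic_geom_sum_X hp.ne_zero
  have hdeg : Φ.natDegree = p - 1 := by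
    have h := congrArg natDegree (geom_sum_mul (X : (ZMod (p ^ (k + 2)))[X]) p)
    rw [← hΦ, ← C_1, hm.natDegree_mul (monic_X_sub_C _), natDegree_X_sub_C,
      natDegree_X_pow_sub_C] at h
    omega
  have hz : ∑ i ∈ Finset.range p, (AdjoinRoot.root Φ) ^ i = 0 := by
    have := AdjoinRoot.mk_self (f := Φ)
    rw [hΦ, map_sum] at this
    simpa using this
  have hzp : AdjoinRoot.root Φ * AdjoinRoot.root Φ ^ (p - 1) = 1 := by
    have := geom_sum_mul (AdjoinRoot.root Φ) p
    rw [hz, zero_mul] at this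
    rw [← pow_succ', Nat.sub_add_cancel hp.pos]
    exact (sub_eq_zero.mp this.symm)
  let pb := AdjoinRoot.powerBasis' hm
  have hdim : pb.dim = p - 1 := hdeg
  have := hm.finite_adjoinRoot
  have hfin : Finite (AdjoinRoot Φ) := Module.finite_of_finite (ZMod (p ^ (k + 2)))
  have hinj : Function.Injective (algebraMap (ZMod (p ^ (k + 2))) (AdjoinRoot Φ)) := by
    have h0 : 0 < pb.dim := by
      have := hp.two_le
      omega
    rw [injective_iff_map_eq_zero]
    intro c hc
    have h2 : c • pb.basis ⟨0, h0⟩ = 0 := by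
      rw [pb.basis_eq_pow, pow_zero, ← Algebra.algebraMap_eq_smul_one, hc]
    have h3 := congrArg (fun v => pb.basis.repr v ⟨0, h0⟩) h2
    simp only [map_smul, Module.Basis.repr_self, map_zero] at h3
    simpa using h3
  refine ⟨AdjoinRoot Φ, inferInstance, Units.mkOfMulEqOne _ _ hzp, hfin, hz, ?_, ?_, ?_, ?_, ?_⟩
  · rw [← map_natCast (algebraMap (ZMod (p ^ (k + 2))) (AdjoinRoot Φ)), ZMod.natCast_self,
      map_zero]
  · rw [← map_natCast (algebraMap (ZMod (p ^ (k + 2))) (AdjoinRoot Φ))]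
    intro h
    have h2 := (injective_iff_map_eq_zero _).mp hinj _ h
    rw [ZMod.natCast_eq_zero_iff] at h2
    have h3 := Nat.le_of_dvd hp.pos h2
    have h4 : p ^ 1 < p ^ (k + 2) := Nat.pow_lt_pow_right hp.one_lt (by omega)
    rw [pow_one] at h4
    omega
  · intro a
    rw [← pb.basis.sum_repr a]
    refine AddSubgroup.sum_mem _ fun i _ => ?_
    obtain ⟨c, hc⟩ := ZMod.natCast_zmod_surjective (pb.basis.repr a i)
    rw [← hc, Nat.cast_smul_eq_nsmul]
    refine AddSubgroup.nsmul_mem _ (AddSubgroup.subset_closure ?_) _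
    refine ⟨i, ?_, ?_⟩
    · have := i.2
      change (i : ℕ) < p - 1
      omega
    · rw [pb.basis_eq_pow]
      rfl
  · intro a b ha hb h
    rw [← map_natCast (algebraMap (ZMod (p ^ (k + 2))) (AdjoinRoot Φ)),
      ← map_natCast (algebraMap (ZMod (p ^ (k + 2))) (AdjoinRoot Φ))] at h
    have h2 := (ZMod.natCast_eq_natCast_iff' _ _ _).mp (hinj h)
    rwa [Nat.mod_eq_of_lt ha, Nat.mod_eq_of_lt hb] at h2
  · intro h2
    let i : ZMod (p ^ (k + 2)) →+* DualNumber (ZMod p) :=
      (algebraMap (ZMod p) (DualNumber (ZMod p))).comp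
        (ZMod.castHom (dvd_pow_self p (by omega)) (ZMod p))
    have hi : Φ.eval₂ i (1 + DualNumber.eps) = 0 := by
      rw [hΦ, eval₂_finsetSum]
      simp only [eval₂_X_pow]
      obtain ⟨t, ht⟩ := hp.odd_of_ne_two h2
      have h3 : ∑ j ∈ Finset.range p, j = p * t := by
        have := Finset.sum_range_id_mul_two p
        have h4 : p - 1 = t * 2 := by omega
        rw [h4, ← mul_assoc] at this
        omega
      ext
      · simp [TrivSqZeroExt.fst_sum]
      · simp only [TrivSqZeroExt.snd_sum, TrivSqZeroExt.snd_pow]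
        simp only [TrivSqZeroExt.fst_add, TrivSqZeroExt.fst_one, DualNumber.fst_eps, add_zero,
          one_pow, TrivSqZeroExt.snd_add, TrivSqZeroExt.snd_one, DualNumber.snd_eps, zero_add,
          smul_eq_mul, mul_one, nsmul_eq_mul, TrivSqZeroExt.snd_zero]
        rw [← Nat.cast_sum, h3, Nat.cast_mul, ZMod.natCast_self, zero_mul]
    let ψ := AdjoinRoot.lift i _ hi
    have hψ : ψ (AdjoinRoot.root Φ) = 1 + DualNumber.eps := AdjoinRoot.lift_root hi
    refine ⟨(TrivSqZeroExt.fstHom (ZMod p) (ZMod p) (ZMod p)).toRingHom.comp ψ,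
      (TrivSqZeroExt.sndHom (ZMod p) (ZMod p)).toAddMonoidHom.comp ψ.toAddMonoidHom, ?_, ?_, ?_⟩
    · change (ψ (AdjoinRoot.root Φ)).fst = 1
      simp [hψ]
    · change (ψ 1).snd = 0
      simp
    · intro y
      change (ψ (AdjoinRoot.root Φ * y)).snd = (ψ y).snd + (ψ y).fst
      rw [map_mul, hψ, DualNumber.snd_mul]
      simp

section Red2

variable {A : Type} [CommRing A] {P : Type} [Group P] {p : ℕ} {z : Aˣ}

/-- a quotient of two evaluations followed by a translation -/
def EE (P : Type) [Group P] (x y a : A) : HH A P := ⟨ev P x * (ev P y)⁻¹, Equiv.addLeft a⟩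

/-- the conjugates of the quotient of two elements of order `p` -/
def WW (P : Type) [Group P] (z : Aˣ) (x : A) : HH A P := EE P (x * -2) (x + x * z * -2) x

/-- the group generated by `p - 1` conjugates -/
def G2 (P : Type) [Group P] (p : ℕ) (z : Aˣ) : Subgroup (HH A P) :=
  Subgroup.closure ((fun j : ℕ => WW P z ((z : A) ^ j)) '' Set.Iio (p - 1))

lemma EE_mul (x y a y' a' x' : A) (h : a + x' = y) :
    EE P x y a * EE P x' y' a' = EE P x (a + y') (a + a') := by
  ext1
  · simp only [EE, mul_left, map_mul, map_inv, act_ev, Equiv.coe_addLeft, h]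
    group
  · simp [EE, Equiv.addLeft_add]

lemma WW_mem (hp : p.Prime) (hz : ∑ i ∈ Finset.range p, (z : A) ^ i = 0) (n : ℕ) :
    WW P z ((z : A) ^ n) ∈ G2 P p z := by
  have h1 : ∀ j < p - 1, WW P z ((z : A) ^ j) ∈ G2 P p z := fun j hj =>
    Subgroup.subset_closure ⟨j, hj, rfl⟩
  have h2 : ∀ j : ℕ, EE P (-2) (∑ i ∈ Finset.range j, (z : A) ^ i + z ^ j * -2)
      (∑ i ∈ Finset.range j, (z : A) ^ i) * WW P z ((z : A) ^ j) =
      EE P (-2) (∑ i ∈ Finset.range (j + 1), (z : A) ^ i + z ^ (j + 1) * -2)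
        (∑ i ∈ Finset.range (j + 1), (z : A) ^ i) := by
    intro j
    rw [WW, EE_mul _ _ _ _ _ _ rfl, Finset.sum_range_succ, pow_succ, add_assoc]
  have h0 : EE P (-2 : A) (-2) 0 = 1 := by
    ext1 <;> simp [EE]
  have h3 : ∀ j ≤ p - 1, EE P (-2) (∑ i ∈ Finset.range j, (z : A) ^ i + z ^ j * -2)
      (∑ i ∈ Finset.range j, (z : A) ^ i) ∈ G2 P p z := by
    intro j
    induction j with
    | zero =>
      intro _
      simp [h0]
    | succ j ih =>
      intro hj
      rw [← h2]
      exact mul_mem (ih (by omega)) (h1 j (by omega))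
  have h4 : WW P z ((z : A) ^ (p - 1)) ∈ G2 P p z := by
    have h5 := h2 (p - 1)
    rw [Nat.sub_add_cancel hp.pos, hz, z_pow hz, zero_add, one_mul, h0] at h5
    rw [eq_inv_of_mul_eq_one_right h5]
    exact inv_mem (h3 _ le_rfl)
  rw [← Nat.mod_add_div n p, pow_add, pow_mul, z_pow hz, one_pow, mul_one]
  have := Nat.mod_lt n hp.pos
  rcases Nat.lt_or_ge (n % p) (p - 1) with h | h
  · exact h1 _ h
  · rwa [show n % p = p - 1 by omega]

lemma conj_WW (w : Aˣ) (x : A) :
    inr (Units.mulLeft w) * WW P z x * (inr (Units.mulLeft w))⁻¹ = WW P z (w * x) := by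
  rw [mul_inv_eq_iff_eq_mul]
  ext1
  · simp [WW, EE, act_ev, mul_add, mul_assoc]
  · ext y
    simp [WW, EE, mul_add]

lemma mul_mem_normalizer2 (hp : p.Prime) (hz : ∑ i ∈ Finset.range p, (z : A) ^ i = 0) :
    (inr (Units.mulLeft z) : HH A P) ∈ Subgroup.normalizer (G2 P p z : Set (HH A P)) := by
  have key : ∀ (n : ℕ) (g : HH A P), g ∈ G2 P p z →
      inr (Units.mulLeft (z ^ n)) * g * (inr (Units.mulLeft (z ^ n)))⁻¹ ∈ G2 P p z := by
    intro n g hg
    induction hg using Subgroup.closure_induction with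
    | mem x hx =>
      obtain ⟨j, _, rfl⟩ := hx
      rw [conj_WW, Units.val_pow_eq_pow_val, ← pow_add]
      exact WW_mem hp hz _
    | one => simp
    | mul x y _ _ hx hy =>
      have := mul_mem hx hy
      convert this using 1
      group
    | inv x _ hx =>
      have := inv_mem hx
      convert this using 1
      group
  rw [Subgroup.mem_normalizer_iff]
  intro h
  refine ⟨fun hh => by simpa using key 1 h hh, fun hh => ?_⟩
  have h1 := key (p - 1) _ hh
  have h2 : Units.mulLeft (z ^ (p - 1)) = (Units.mulLeft z)⁻¹ := by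
    rw [eq_inv_iff_mul_eq_one]
    ext y
    simp only [Equiv.Perm.mul_apply, Units.mulLeft_apply, Units.val_pow_eq_pow_val]
    rw [← mul_assoc, ← pow_succ, Nat.sub_add_cancel hp.pos, z_pow hz, one_mul]
    rfl
  rw [h2, map_inv] at h1
  convert h1 using 1
  group

lemma right_tr2 {g : HH A P} (hg : g ∈ G2 P p z) : ∃ a : A, rightHom g = Equiv.addLeft a := by
  induction hg using Subgroup.closure_induction with
  | mem x hx =>
    obtain ⟨j, _, rfl⟩ := hx
    exact ⟨(z : A) ^ j, rfl⟩
  | one => exact ⟨0, by simp⟩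
  | mul x y _ _ hx hy =>
    obtain ⟨a, ha⟩ := hx
    obtain ⟨b, hb⟩ := hy
    exact ⟨a + b, by rw [map_mul, ha, hb, Equiv.addLeft_add]⟩
  | inv x _ hx =>
    obtain ⟨a, ha⟩ := hx
    refine ⟨-a, ?_⟩
    rw [map_inv, ha]
    ext y
    simp

/-- the hexagon -/
def gam (P : Type) [Group P] (z : Aˣ) : (A → P) → P := fun ξ =>
  ξ (-2) * (ξ (1 + z - 2 * (z * z)))⁻¹ * ξ (1 - z) * (ξ (z - 2))⁻¹ * ξ (z - 2 * (z * z)) *
    (ξ (-(2 * z)))⁻¹

lemma gam_mem (hp : p.Prime) (hz : ∑ i ∈ Finset.range p, (z : A) ^ i = 0) :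
    (inl (gam P z) : HH A P) ∈ G2 P p z := by
  have h0 : WW P z 1 ∈ G2 P p z := by simpa using WW_mem (P := P) hp hz 0
  have h1 : WW P z z ∈ G2 P p z := by simpa using WW_mem (P := P) hp hz 1
  have e : (inl (gam P z) : HH A P) = WW P z 1 * WW P z z * (WW P z z * WW P z 1)⁻¹ := by
    rw [eq_mul_inv_iff_mul_eq]
    ext1
    · funext ξ
      simp only [WW, EE, mul_left, left_inl, right_inl, map_one, MulAut.one_apply, map_mul,
        map_inv, act_ev, Equiv.coe_addLeft, Pi.mul_apply, Pi.inv_apply, ev, gam]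
      rw [show (1 : A) * -2 = -2 by ring, show (1 : A) + 1 * z * -2 = 1 + z * -2 by ring,
        show (1 : A) + (z + z * z * -2) = 1 + z - 2 * (z * z) by ring,
        show (z : A) * -2 = -(2 * z) by ring, show (z : A) + z * z * -2 = z - 2 * (z * z) by ring,
        show (z : A) + -2 = z - 2 by ring, show (z : A) + (1 + -(2 * z)) = 1 - z by ring]
      group
    · ext y
      simp [WW, EE, add_left_comm]
  rw [e]
  exact mul_mem (mul_mem h0 h1) (inv_mem (mul_mem h1 h0))

lemma W1_pow_right (n : ℕ) : (WW P z 1 ^ n).right = Equiv.addLeft (n : A) := by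
  induction n with
  | zero => simp
  | succ n ih =>
    rw [pow_succ, mul_right, ih, Nat.cast_succ, Equiv.addLeft_add]
    rfl

theorem reduction2 [Finite A] [Finite P] (hp : p.Prime) (hp2 : p ≠ 2) {k m f : ℕ}
    (hz : ∑ i ∈ Finset.range p, (z : A) ^ i = 0) (hk : ((p ^ k : ℕ) : A) = 0) (hp0 : (p : A) ≠ 0)
    (hinj : ∀ a b : ℕ, a ≤ p * p → b ≤ p * p → (a : A) = b → a = b)
    (r : A →+* ZMod p) (l : A →+ ZMod p) (hr : r z = 1) (hl1 : l 1 = 0)
    (hl : ∀ y, l (z * y) = l y + r y)
    (ξ1 : A → P) (hξ : ∀ y, ∃ n : ℕ, ξ1 n = y) (hP : ∀ x : P, x ^ p ^ (m + 1) = 1)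
    (s : P) (hs : s ^ p ^ m ≠ 1) (hd : derivedSeries P f ≠ ⊥) : Ex (p - 1) p (m + 2) f := by
  classical
  have : Fact p.Prime := ⟨hp⟩
  have h2 : (2 : ZMod p) ≠ 0 := by
    intro h
    have h' : ((2 : ℕ) : ZMod p) = 0 := by exact_mod_cast h
    rw [ZMod.natCast_eq_zero_iff] at h'
    exact hp2 ((Nat.prime_dvd_prime_iff_eq hp Nat.prime_two).mp h')
  have hln : ∀ n : ℕ, l n = 0 := fun n => by rw [← nsmul_one, map_nsmul, hl1, nsmul_zero]
  have hl2 : l 2 = 0 := by exact_mod_cast hln 2
  have hlz : l z = 1 := by simpa [hl1] using hl 1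
  have hlzz : l (z * z) = 2 := by
    rw [hl, hlz, hr]
    norm_num
  have hl2z : l (2 * z) = 2 := by
    rw [two_mul, map_add, hlz]
    norm_num
  have hl2zz : l (2 * (z * z)) = 4 := by
    rw [two_mul, map_add, hlzz]
    norm_num
  have hlp : ∀ (i : ℕ) (y : A), l ((z : A) ^ i * y) = l y + i * r y := by
    intro i y
    induction i with
    | zero => simp
    | succ i ih =>
      rw [pow_succ', mul_assoc, hl, ih, map_mul, map_pow, hr]
      push_cast
      ring
  have h0 : WW P z 1 ∈ G2 P p z := by simpa using WW_mem (P := P) hp hz 0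
  have hur : rightHom (inl (gam P z) * inr (Units.mulLeft z) : HH A P) = Units.mulLeft z := by simp
  have hul : (inl (gam P z) * inr (Units.mulLeft z) : HH A P).left = gam P z := by simp
  have hgam : ∀ (i : ℕ) (a : A), r a = 0 → l a = 0 →
      gam P z (fun y => if a + (z : A) ^ i * y = 1 - z then s else 1) =
        if a + (z : A) ^ i * (1 - z) = 1 - z then s else 1 := by
    intro i a ha hla
    have n1 : ∀ y, r y ≠ 0 → a + (z : A) ^ i * y ≠ 1 - z := fun y hy h => hy (by
      simpa [ha, hr] using congrArg r h)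
    have e1 := n1 (-2) (by simpa [map_ofNat] using h2)
    have e3 := n1 (z - 2) (by
      rw [map_sub, hr, map_ofNat]
      intro h
      exact one_ne_zero (by linear_combination -h : (1 : ZMod p) = 0))
    have e4 := n1 (z - 2 * (z * z)) (by
      rw [map_sub, map_mul, map_mul, hr, map_ofNat]
      intro h
      exact one_ne_zero (by linear_combination -h : (1 : ZMod p) = 0))
    have e5 := n1 (-(2 * z)) (by simpa [map_ofNat, hr] using h2)
    have e2 : a + (z : A) ^ i * (1 + z - 2 * (z * z)) ≠ 1 - z := by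
      intro h
      have h' := congrArg l h
      simp only [map_add, hlp, map_sub, map_mul, map_one, map_ofNat, hla, hl1, hlz, hl2zz, hr] at h'
      exact h2 (by linear_combination -h')
    simp only [gam, if_neg e1, if_neg e2, if_neg e3, if_neg e4, if_neg e5]
    simp
  obtain ⟨j, hj⟩ : ∃ j : ℕ, ∀ i < p, ((j * p : ℕ) : A) + (z : A) ^ i * (1 - z) ≠ 1 - z := by
    have hc : ((Finset.range p).image fun i => 1 - z - (z : A) ^ i * (1 - z)).card <
        ((Finset.range (p + 1)).image fun j => ((j * p : ℕ) : A)).card := by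
      rw [Finset.card_image_of_injOn (s := Finset.range (p + 1)), Finset.card_range]
      · exact Nat.lt_succ_of_le (Finset.card_image_le.trans (Finset.card_range p).le)
      · intro a ha b hb h
        rw [Finset.coe_range, Set.mem_Iio] at ha hb
        exact Nat.eq_of_mul_eq_mul_right hp.pos (hinj _ _ (Nat.mul_le_mul_right _ (by omega))
          (Nat.mul_le_mul_right _ (by omega)) h)
    obtain ⟨x, hx, hx'⟩ := Finset.exists_mem_notMem_of_card_lt_card hc
    obtain ⟨j, -, rfl⟩ := Finset.mem_image.mp hx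
    exact ⟨j, fun i hi h => hx' (Finset.mem_image.mpr
      ⟨i, Finset.mem_range.mpr hi, by linear_combination -h⟩)⟩
  refine core hp hz hk hP hd _ ?_ (G2 P p z) rfl (fun g => right_tr2)
    (inl (gam P z) * inr (Units.mulLeft z))
    (mul_mem (Subgroup.le_normalizer (gam_mem hp hz)) (mul_mem_normalizer2 hp hz)) hur
    ⟨_, pow_mem h0 (j * p), fun y => if y = 1 - z then s else 1, ?_, ?_⟩
    ⟨fun y => if l y = -1 then ξ1 (y - (1 - z)) else 1, fun y => ?_⟩
  · refine (Set.ncard_image_le (Set.finite_Iio (p - 1))).trans ?_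
    rw [← Finset.coe_range, Set.ncard_coe_finset, Finset.card_range]
  · have h := pow_left_eq hur (fun y => if y = 1 - z then s else 1) (p - 1) (fun i h0 hi => by
      have hne : 0 + (z : A) ^ i * (1 - z) ≠ 1 - z := by
        rw [zero_add]
        intro h1
        have h3 := fix_of_pow hp hz h0 (by have := hp.pos; omega) h1
        have h4 : ∀ n : ℕ, (z : A) ^ n = 1 - n * (1 - z) := by
          intro n
          induction n with
          | zero => simp
          | succ n ih =>
            rw [pow_succ', ih]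
            push_cast
            linear_combination (-(n : A)) * h3
        obtain ⟨t, ht⟩ := hp.odd_of_ne_two hp2
        have h5 : ∑ j ∈ Finset.range p, j = p * t := by
          have := Finset.sum_range_id_mul_two p
          have h4 : p - 1 = t * 2 := by omega
          rw [h4, ← mul_assoc] at this
          omega
        simp only [h4, Finset.sum_sub_distrib, ← Finset.sum_mul] at hz
        rw [← Nat.cast_sum (R := A) (Finset.range p) (fun j => j), h5] at hz
        simp only [Finset.sum_const, Finset.card_range, nsmul_eq_mul, mul_one, Nat.cast_mul] at hz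
        exact hp0 (by linear_combination (1 + t * (1 - (z : A))) * hz - p * (t : A) ^ 2 * h3)
      have := hgam i 0 (map_zero _) (map_zero _)
      rw [if_neg hne] at this
      rw [hul]
      simpa using this)
    rw [Nat.sub_add_cancel hp.pos] at h
    rw [h, hul]
    have := hgam 0 0 (map_zero _) (map_zero _)
    simp only [pow_zero, one_mul, zero_add, if_true] at this
    rwa [this]
  · refine pow_left_one hur _ _ fun i hi => ?_
    have := hgam i ((j * p : ℕ) : A) (by simp) (hln _)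
    rw [if_neg (hj i hi)] at this
    rw [hul, W1_pow_right]
    exact this
  · obtain ⟨n, rfl⟩ := hξ y
    refine ⟨_, by
      rw [← conj_inl' (WW P z 1 ^ n) (gam P z)]
      exact mul_mem (mul_mem (pow_mem h0 n) (gam_mem hp hz)) (inv_mem (pow_mem h0 n)), ?_⟩
    have k0 : (0 : ZMod p) ≠ -1 := fun h => one_ne_zero (by linear_combination h : (1 : ZMod p) = 0)
    have k1 : (1 : ZMod p) ≠ -1 := fun h => h2 (by linear_combination h)
    have k2 : (-2 : ZMod p) ≠ -1 := fun h =>
      one_ne_zero (by linear_combination -h : (1 : ZMod p) = 0)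
    have k3 : (1 - 4 : ZMod p) ≠ -1 := fun h => h2 (by linear_combination -h)
    have hb : ∀ n : ℕ, (WW P z 1 ^ n).left
        (fun y => if l y = -1 then ξ1 (y - (1 - z)) else 1) = 1 := by
      intro n
      induction n with
      | zero => rfl
      | succ n ih =>
        rw [pow_succ, mul_left, W1_pow_right, Pi.mul_apply, ih, one_mul]
        simp only [WW, EE, map_mul, map_inv, act_ev, Equiv.coe_addLeft, Pi.mul_apply, Pi.inv_apply,
          ev]
        rw [show (n : A) + 1 * -2 = n - 2 by ring,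
          show (n : A) + (1 + 1 * z * -2) = n + 1 - 2 * z by ring]
        simp only [map_sub, map_add, hln, hl2, hl1, hl2z, sub_zero, add_zero, zero_sub, if_neg k0,
          if_neg k2]
        simp
    rw [Pi.mul_apply, Pi.mul_apply, Pi.inv_apply, hb, W1_pow_right]
    change 1 * gam P z (_ ∘ Equiv.addLeft (n : A)) * 1⁻¹ = _
    simp only [gam, Function.comp_apply, Equiv.coe_addLeft, map_add, map_sub, map_neg, hln, hl2, hl1,
      hlz, hl2z, hl2zz, zero_add, neg_zero, sub_zero, zero_sub, if_neg k0, if_neg k1, if_neg k2,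
      if_neg k3, if_true]
    simp

end Red2

theorem reduction' {p m f : ℕ} (hp : p.Prime) (P : Type) [Group P] [Finite P]
    (hP : ∀ x : P, x ^ p ^ (m + 1) = 1) (hd : derivedSeries P f ≠ ⊥) :
    Ex (max 2 (p - 1)) p (m + 2) f := by
  have : NeZero (p ^ (m + 1)) := ⟨pow_ne_zero _ hp.ne_zero⟩
  let Q := P × Multiplicative (ZMod (p ^ (m + 1)))
  obtain ⟨A, _, z, _, hz, hk, hp0, hgen, hinj, hodd⟩ := exists_ring hp (Nat.card Q + 1)
  have hlt : ∀ n, n ≤ Nat.card Q + 1 + 2 → p ^ n ≤ p ^ (Nat.card Q + 1 + 2) := fun n hn =>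
    Nat.pow_le_pow_right hp.pos hn
  obtain ⟨ξ, hξ⟩ : ∃ ξ : A → Q, ∀ y, ∃ n : ℕ, ξ n = y := by
    let e := Finite.equivFin Q
    have hi : Function.Injective fun y : Q => ((e y : ℕ) : A) := by
      have hb : ∀ y, (e y : ℕ) < p ^ (Nat.card Q + 1 + 2) := fun y =>
        ((e y).2.trans (Nat.lt_pow_self hp.one_lt)).trans_le (hlt _ (by omega))
      intro x y h
      exact e.injective (Fin.ext (hinj _ _ (hb x) (hb y) h))
    exact ⟨Function.invFun fun y : Q => ((e y : ℕ) : A), fun y =>
      ⟨e y, Function.leftInverse_invFun hi y⟩⟩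
  have hQ : ∀ x : Q, x ^ p ^ (m + 1) = 1 := by
    intro x
    refine Prod.ext (hP _) ?_
    change x.2 ^ p ^ (m + 1) = 1
    apply Multiplicative.toAdd.injective
    rw [toAdd_pow, nsmul_eq_mul, ZMod.natCast_self, zero_mul, toAdd_one]
  have hs : ((1, Multiplicative.ofAdd 1) : Q) ^ p ^ m ≠ 1 := by
    intro h
    have h1 : (Multiplicative.ofAdd (1 : ZMod (p ^ (m + 1)))) ^ p ^ m = 1 := congrArg Prod.snd h
    have h2 := congrArg Multiplicative.toAdd h1
    rw [toAdd_pow, nsmul_eq_mul, toAdd_ofAdd, mul_one, toAdd_one, ZMod.natCast_eq_zero_iff] at h2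
    have h3 := Nat.le_of_dvd (pow_pos hp.pos _) h2
    have h4 : p ^ m < p ^ (m + 1) := Nat.pow_lt_pow_right hp.one_lt (by omega)
    omega
  have hdQ : derivedSeries Q f ≠ ⊥ := by
    intro h
    apply hd
    rw [← map_derivedSeries_eq (f := MonoidHom.fst P (Multiplicative (ZMod (p ^ (m + 1)))))
      Prod.fst_surjective f]
    change Subgroup.map _ (derivedSeries Q f) = ⊥
    rw [h, Subgroup.map_bot]
  by_cases h2 : p = 2
  · have := reduction hp hz hk hp0 hgen ξ (fun y => (hξ y).elim fun n hn => ⟨_, hn⟩) hQ _ hs hdQ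
    rwa [show max 2 (p - 1) = p by omega]
  · obtain ⟨r, l, hr, hl1, hl⟩ := hodd h2
    have hb : ∀ a, a ≤ p * p → a < p ^ (Nat.card Q + 1 + 2) := fun a ha => by
      have h3 : p ^ 2 < p ^ 3 := Nat.pow_lt_pow_right hp.one_lt (by omega)
      have h4 := hlt 3 (by omega)
      rw [pow_two] at h3
      omega
    have := reduction2 hp h2 hz hk hp0 (fun a b ha hb' => hinj a b (hb a ha) (hb b hb')) r l hr hl1
      hl ξ hξ hQ _ hs hdQ
    have h3 := hp.two_le
    rwa [show max 2 (p - 1) = p - 1 by omega]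

end Pool.Agent.P.MP_9155ad_al.Rz
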