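import Mathlib

/-!
Commutative rings with a polynomial one-parameter family of endomorphisms `σ : R → R[X]`,
their tensor products, and linear functionals on them.
-/

namespace Pool.Agent.P.MP_9155ad_al.Rz

open Polynomial TensorProduct
open scoped commutatorElement

/-- there is a finite group of exponent dividing `q` and derived length greater than `f` -/
def NS (q f : ℕ) : Prop :=
  ∃ (P : Type) (_ : Group P), Finite P ∧ (∀ x : P, x ^ q = 1) ∧ derivedSeries P f ≠ ⊥

lemma NS.mono {q r f : ℕ} (h : NS q f) (hqr : q ∣ r) : NS r f := by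
  obtain ⟨P, _, h1, h2, h3⟩ := h
  obtain ⟨c, rfl⟩ := hqr
  exact ⟨P, inferInstance, h1, fun x => by rw [pow_mul, h2, one_pow], h3⟩

lemma NS_of_quot {q f : ℕ} (G : Type) [Group G] [Finite G] (M : Subgroup G) [M.Normal]
    (h : ∀ g : G, g ^ q ∈ M) (g : G) (hg : g ∈ derivedSeries G f) (hM : g ∉ M) : NS q f := by
  refine ⟨G ⧸ M, inferInstance, inferInstance, fun x => ?_, fun h0 => hM ?_⟩
  · obtain ⟨y, rfl⟩ := QuotientGroup.mk'_surjective M x
    rw [← map_pow]
    exact (QuotientGroup.eq_one_iff _).mpr (h y)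
  · have h1 : QuotientGroup.mk' M g ∈ (derivedSeries G f).map (QuotientGroup.mk' M) :=
      Subgroup.mem_map_of_mem _ hg
    rw [map_derivedSeries_eq (QuotientGroup.mk'_surjective M), h0, Subgroup.mem_bot] at h1
    exact (QuotientGroup.eq_one_iff _).mp h1

/-- a submonoid of a finite group is a subgroup -/
def toSub {G : Type} [Group G] [Finite G] (S : Submonoid G) : Subgroup G where
  toSubmonoid := S
  inv_mem' {g} hg := by
    have h : g⁻¹ = g ^ (orderOf g - 1) := by
      rw [inv_eq_iff_mul_eq_one, ← pow_succ', Nat.sub_add_cancel (orderOf_pos g),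
        pow_orderOf_eq_one]
    change g⁻¹ ∈ S
    rw [h]
    exact pow_mem hg _

lemma mem_toSub {G : Type} [Group G] [Finite G] (S : Submonoid G) (g : G) :
    g ∈ toSub S ↔ g ∈ S := Iff.rfl

section Comm

variable {A : Type} [Ring A]

lemma comm_val {a b : A} (ha : ∀ r, a * r * a = 0) (hb : ∀ r, b * r * b = 0) {g h : Aˣ}
    (hg : (g : A) = 1 + a) (hh : (h : A) = 1 + b) :
    ((⁅g, h⁆ : Aˣ) : A) = 1 + (a * b - b * a) := by
  have inv : ∀ {c : A} {u : Aˣ}, (∀ r, c * r * c = 0) → (u : A) = 1 + c →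
      ((u⁻¹ : Aˣ) : A) = 1 - c := by
    intro c u hc hu
    apply Units.inv_eq_of_mul_eq_one_right
    have := hc 1
    rw [mul_one] at this
    rw [hu, add_mul, one_mul, mul_sub, mul_one, this]
    abel
  rw [commutatorElement_def, Units.val_mul, Units.val_mul, Units.val_mul, inv ha hg, inv hb hh,
    hg, hh]
  have e : (1 + a) * (1 + b) * (1 - a) * (1 - b) = 1 + (a * b - b * a) +
      (-(a * 1 * a) + a * 1 * a * b - b * 1 * b + b * a * b - a * b * a - a * (b * 1 * b) +
        a * b * a * b) := by noncomm_ring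
  rw [e, ha, ha, hb, hb]
  simp

lemma sandwich {n R : Type} [Fintype n] [CommRing R] {a : Matrix n n R}
    (h : ∀ i j k l, a i j * a k l = 0) (r : Matrix n n R) : a * r * a = 0 := by
  ext i j
  simp only [Matrix.mul_apply, Finset.sum_mul, Matrix.zero_apply]
  refine Finset.sum_eq_zero fun l _ => Finset.sum_eq_zero fun m _ => ?_
  rw [mul_right_comm, h, zero_mul]

/-- the unit `1 + a` -/
def unit1 {a : A} (ha : ∀ r, a * r * a = 0) : Aˣ where
  val := 1 + a
  inv := 1 - a
  val_inv := by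
    have := ha 1
    rw [mul_one] at this
    rw [add_mul, one_mul, mul_sub, mul_one, this]
    abel
  inv_val := by
    have := ha 1
    rw [mul_one] at this
    rw [sub_mul, one_mul, mul_add, mul_one, this]
    abel

end Comm

section Tens

variable {k K : Type} [CommRing k] [CommRing K] [Algebra k K]
variable {R S : Type} [CommRing R] [CommRing S] [Algebra k R] [Algebra k S]

/-- left inclusion -/
noncomputable def iL (k R S : Type) [CommRing k] [CommRing R] [CommRing S] [Algebra k R]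
    [Algebra k S] : R →+* R ⊗[k] S :=
  (Algebra.TensorProduct.includeLeft : R →ₐ[k] R ⊗[k] S).toRingHom

/-- right inclusion -/
noncomputable def iR (k R S : Type) [CommRing k] [CommRing R] [CommRing S] [Algebra k R]
    [Algebra k S] : S →+* R ⊗[k] S :=
  (Algebra.TensorProduct.includeRight : S →ₐ[k] R ⊗[k] S).toRingHom

lemma iL_mul_iR (a : R) (b : S) : iL k R S a * iR k R S b = a ⊗ₜ[k] b := by
  simp [iL, iR]

/-- the family on the tensor product -/
noncomputable def tσ (σ : R →ₐ[k] R[X]) (τ : S →ₐ[k] S[X]) : R ⊗[k] S →ₐ[k] (R ⊗[k] S)[X] :=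
  Algebra.TensorProduct.productMap
    ((mapAlgHom (Algebra.TensorProduct.includeLeft : R →ₐ[k] R ⊗[k] S)).comp σ)
    ((mapAlgHom (Algebra.TensorProduct.includeRight : S →ₐ[k] R ⊗[k] S)).comp τ)

lemma tσ_tmul (σ : R →ₐ[k] R[X]) (τ : S →ₐ[k] S[X]) (a : R) (b : S) :
    tσ σ τ (a ⊗ₜ[k] b) = (σ a).map (iL k R S) * (τ b).map (iR k R S) := by
  rw [tσ, Algebra.TensorProduct.productMap_apply_tmul]
  rfl

lemma tσ_iL (σ : R →ₐ[k] R[X]) (τ : S →ₐ[k] S[X]) (a : R) :
    tσ σ τ (iL k R S a) = (σ a).map (iL k R S) := by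
  have := tσ_tmul σ τ a 1
  rw [map_one, Polynomial.map_one, mul_one] at this
  exact this

lemma tσ_iR (σ : R →ₐ[k] R[X]) (τ : S →ₐ[k] S[X]) (b : S) :
    tσ σ τ (iR k R S b) = (τ b).map (iR k R S) := by
  have := tσ_tmul σ τ 1 b
  rw [map_one, Polynomial.map_one, one_mul] at this
  exact this

/-- product of two functionals -/
noncomputable def tens (E : R →ₗ[k] K) (F : S →ₗ[k] K) : R ⊗[k] S →ₗ[k] K :=
  LinearMap.mul' k K ∘ₗ TensorProduct.map E F

lemma tens_tmul (E : R →ₗ[k] K) (F : S →ₗ[k] K) (a : R) (b : S) :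
    tens E F (a ⊗ₜ[k] b) = E a * F b := by
  simp [tens]

lemma tens_mul (E : R →ₗ[k] K) (F : S →ₗ[k] K) (a : R) (b : S) :
    tens E F (iL k R S a * iR k R S b) = E a * F b := by
  rw [iL_mul_iR, tens_tmul]

/-- a functional applied to the coefficients -/
noncomputable def hat (E : R →ₗ[k] K) (f : R[X]) : PowerSeries K :=
  PowerSeries.mk fun j => E (f.coeff j)

lemma coeff_hat (E : R →ₗ[k] K) (f : R[X]) (j : ℕ) :
    PowerSeries.coeff j (hat E f) = E (f.coeff j) := PowerSeries.coeff_mk _ _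

lemma hat_add (E : R →ₗ[k] K) (f g : R[X]) : hat E (f + g) = hat E f + hat E g := by
  ext j
  simp [coeff_hat]

lemma hat_zero (E : R →ₗ[k] K) : hat E 0 = 0 := by
  ext j
  simp [coeff_hat]

lemma add_hat (E F : R →ₗ[k] K) (f : R[X]) : hat (E + F) f = hat E f + hat F f := by
  ext j
  simp [coeff_hat]

lemma sub_hat (E F : R →ₗ[k] K) (f : R[X]) : hat (E - F) f = hat E f - hat F f := by
  ext j
  simp [coeff_hat]

lemma hat_C_mul_X_pow (E : R →ₗ[k] K) (a : R) (n : ℕ) :
    hat E (C a * X ^ n) = PowerSeries.C (E a) * PowerSeries.X ^ n := by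
  ext j
  rw [coeff_hat, coeff_C_mul_X_pow, PowerSeries.coeff_C_mul, PowerSeries.coeff_X_pow]
  split_ifs <;> simp

lemma hat_tens (E : R →ₗ[k] K) (F : S →ₗ[k] K) (f : R[X]) (g : S[X]) :
    hat (tens E F) (f.map (iL k R S) * g.map (iR k R S)) = hat E f * hat F g := by
  ext j
  simp only [coeff_hat, coeff_mul, PowerSeries.coeff_mul, map_sum, coeff_map, tens_mul]

lemma hat_tσ (σ : R →ₐ[k] R[X]) (τ : S →ₐ[k] S[X]) (E : R →ₗ[k] K) (F : S →ₗ[k] K)
    (a : R) (b : S) : hat (tens E F) (tσ σ τ (a ⊗ₜ[k] b)) = hat E (σ a) * hat F (τ b) := by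
  rw [tσ_tmul, hat_tens]

/-- invariant functional -/
def InvF (σ : R →ₐ[k] R[X]) (E : R →ₗ[k] K) : Prop := ∀ r, hat E (σ r) = PowerSeries.C (E r)

lemma InvF.tens {σ : R →ₐ[k] R[X]} {τ : S →ₐ[k] S[X]} {E : R →ₗ[k] K} {F : S →ₗ[k] K}
    (hE : InvF σ E) (hF : InvF τ F) : InvF (tσ σ τ) (tens E F) := by
  intro r
  induction r with
  | zero => simp [hat_zero]
  | tmul a b => rw [hat_tσ, hE, hF, tens_tmul, map_mul]
  | add x y hx hy => rw [map_add, hat_add, hx, hy, map_add, map_add]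

lemma InvF.coeff {σ : R →ₐ[k] R[X]} {E : R →ₗ[k] K} (hE : InvF σ E) (r : R) {j : ℕ}
    (hj : j ≠ 0) : E ((σ r).coeff j) = 0 := by
  rw [← coeff_hat, hE, PowerSeries.coeff_C, if_neg hj]

end Tens

section Base

variable {k K : Type} [CommRing k] [CommRing K] [Algebra k K] {n : ℕ}

open TrivSqZeroExt

/-- the square-zero extension -/
abbrev SZ (k : Type) (n : ℕ) : Type := TrivSqZeroExt k (Fin n → k)

lemma SZ_free : Module.Free k (SZ k n) := inferInstanceAs (Module.Free k (k × (Fin n → k)))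

lemma SZ_finite : Module.Finite k (SZ k n) := inferInstanceAs (Module.Finite k (k × (Fin n → k)))

/-- the family on the square-zero extension given by two linear maps -/
noncomputable def bσ (D₁ D₂ : (Fin n → k) →ₗ[k] (Fin n → k)) : SZ k n →ₐ[k] (SZ k n)[X] :=
  liftEquivOfComm ⟨
    { toFun := fun v => C (inr v) * X ^ 0 + C (inr (D₁ v)) * X ^ 1 + C (inr (D₂ v)) * X ^ 2
      map_add' := fun v w => by
        simp only [map_add, inr_add]
        ring
      map_smul' := fun c v => by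
        simp only [map_smul, inr_smul, RingHom.id_apply, ← smul_C, smul_add, smul_mul_assoc] },
    fun v w => by
      have h : ∀ a b : Fin n → k, (C (inr a) * C (inr b) : (SZ k n)[X]) = 0 := fun a b => by
        rw [← map_mul, inr_mul_inr, map_zero]
      simp only [LinearMap.coe_mk, AddHom.coe_mk]
      linear_combination h v w + X * h v (D₁ w) + X ^ 2 * h v (D₂ w) + X * h (D₁ v) w +
        X ^ 2 * h (D₁ v) (D₁ w) + X ^ 3 * h (D₁ v) (D₂ w) + X ^ 2 * h (D₂ v) w +
        X ^ 3 * h (D₂ v) (D₁ w) + X ^ 4 * h (D₂ v) (D₂ w)⟩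

lemma bσ_inr (D₁ D₂ : (Fin n → k) →ₗ[k] (Fin n → k)) (v : Fin n → k) :
    bσ D₁ D₂ (inr v) = C (inr v) * X ^ 0 + C (inr (D₁ v)) * X ^ 1 + C (inr (D₂ v)) * X ^ 2 := by
  rw [bσ, liftEquivOfComm_apply, lift_apply_inr]
  rfl

/-- the coordinate functionals -/
noncomputable def co (K : Type) [CommRing K] [Algebra k K] (i : Fin n) : SZ k n →ₗ[k] K :=
  Algebra.linearMap k K ∘ₗ LinearMap.proj i ∘ₗ sndHom k (Fin n → k)

lemma co_apply (i : Fin n) (s : SZ k n) : co K i s = algebraMap k K (s.snd i) := rfl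

lemma hat_bσ (D₁ D₂ : (Fin n → k) →ₗ[k] (Fin n → k)) (i : Fin n) (s : SZ k n) :
    hat (co K i) (bσ D₁ D₂ s) = PowerSeries.C (algebraMap k K (s.snd i)) +
      PowerSeries.C (algebraMap k K (D₁ s.snd i)) * PowerSeries.X +
      PowerSeries.C (algebraMap k K (D₂ s.snd i)) * PowerSeries.X ^ 2 := by
  have h1 : bσ D₁ D₂ (inl s.fst) = C (inl s.fst) * X ^ 0 := by
    rw [← algebraMap_eq_inl, AlgHom.commutes, pow_zero, mul_one]
    rfl
  conv_lhs => rw [← inl_fst_add_inr_snd_eq s, map_add, bσ_inr, h1]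
  simp only [hat_add, hat_C_mul_X_pow, co_apply]
  simp

end Base

end Pool.Agent.P.MP_9155ad_al.Rz
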