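import Pool.Agent.P.MP_9155ad_al.ROdd

/-!
Finite groups of exponent `4` of unbounded derived length.
-/

namespace Pool.Agent.P.MP_9155ad_al.Rz

open Polynomial TensorProduct Matrix
open scoped commutatorElement

section Defs

variable {R S : Type} [CommRing R] [CommRing S]

/-- invariant vectors -/
def Inv2 (σ : R →+* R[X]) (κ : R × R) : Prop := σ κ.1 = C κ.1 + X * C κ.2 ∧ σ κ.2 = C κ.2

/-- all products of coordinates vanish -/
def Sq2 (κ : R × R) : Prop := κ.1 * κ.1 = 0 ∧ κ.1 * κ.2 = 0 ∧ κ.2 * κ.2 = 0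

/-- the triple product -/
def tri (u v w : R × R) : R × R :=
  ((u.1 * v.2 - u.2 * v.1) * w.1, (u.1 * v.2 - u.2 * v.1) * w.2)

/-- iterated triple products -/
def Good2 (σ : R →+* R[X]) : ℕ → R × R → Prop
  | 0, κ => Inv2 σ κ ∧ Sq2 κ
  | n + 1, κ => ∃ u v w, Good2 σ n u ∧ Good2 σ n v ∧ Good2 σ n w ∧ κ = tri u v w

lemma Good2.spec {σ : R →+* R[X]} : ∀ {n : ℕ} {κ : R × R}, Good2 σ n κ → Inv2 σ κ ∧ Sq2 κ
  | 0, _, h => h
  | _ + 1, _, ⟨u, v, w, hu, hv, hw, e⟩ => by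
    obtain ⟨⟨a1, a2⟩, -⟩ := hu.spec
    obtain ⟨⟨b1, b2⟩, -⟩ := hv.spec
    obtain ⟨⟨c1, c2⟩, h1, h2, h3⟩ := hw.spec
    subst e
    refine ⟨⟨?_, ?_⟩, ?_, ?_, ?_⟩
    · simp only [tri, map_sub, map_mul, a1, a2, b1, b2, c1]
      ring
    · simp only [tri, map_sub, map_mul, a1, a2, b1, b2, c2]
      ring
    all_goals
      simp only [tri]
      grind

lemma Good2.map {σ : R →+* R[X]} {τ : S →+* S[X]} {π : R →+* S}
    (hπ : ∀ a, τ (π a) = (σ a).map π) :
    ∀ {n : ℕ} {κ : R × R}, Good2 σ n κ → Good2 τ n (π κ.1, π κ.2)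
  | 0, _, ⟨⟨a1, a2⟩, h1, h2, h3⟩ => by
    refine ⟨⟨?_, ?_⟩, ?_, ?_, ?_⟩
    · simp [hπ, a1]
    · simp [hπ, a2]
    all_goals simp only [← map_mul, h1, h2, h3, map_zero]
  | _ + 1, _, ⟨u, v, w, hu, hv, hw, e⟩ =>
    ⟨_, _, _, hu.map hπ, hv.map hπ, hw.map hπ, by simp [e, tri]⟩

/-- the matrix of a vector -/
def mat2 (κ : R × R) : Matrix (Fin 3) (Fin 3) R := !![0, κ.2, κ.1; κ.1, 0, 0; κ.2, 0, 0]

lemma Sq2.sand {κ : R × R} (h : Sq2 κ) (r : Matrix (Fin 3) (Fin 3) R) :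
    mat2 κ * r * mat2 κ = 0 := by
  obtain ⟨h1, h2, h3⟩ := h
  have h4 : κ.2 * κ.1 = 0 := by rw [mul_comm, h2]
  refine sandwich (fun i j k l => ?_) r
  fin_cases i <;> fin_cases j <;> fin_cases k <;> fin_cases l <;> simp [mat2, h1, h2, h3, h4]

lemma Good2.mem [CharP R 2] {σ : R →+* R[X]} (G : Subgroup (Matrix (Fin 3) (Fin 3) R)ˣ)
    (hG : ∀ κ, Inv2 σ κ → Sq2 κ → ∀ g : (Matrix (Fin 3) (Fin 3) R)ˣ, g.val = 1 + mat2 κ → g ∈ G) :
    ∀ {n : ℕ} {κ : R × R}, Good2 σ n κ → ∃ g : G, g ∈ derivedSeries G n ∧ g.val.val = 1 + mat2 κ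
  | 0, κ, h => ⟨⟨unit1 h.2.sand, hG κ h.1 h.2 _ rfl⟩, Subgroup.mem_top _, rfl⟩
  | n + 1, _, ⟨u, v, w, hu, hv, hw, e⟩ => by
    obtain ⟨g1, hg1, e1⟩ := hu.mem G hG
    obtain ⟨g2, hg2, e2⟩ := hv.mem G hG
    obtain ⟨g3, -, e3⟩ := hw.mem G hG
    have h2 : (2 : R) = 0 := CharTwo.two_eq_zero
    have h12 : ⁅g1, g2⁆ ∈ derivedSeries G (n + 1) := Subgroup.commutator_mem_commutator hg1 hg2
    refine ⟨⁅⁅g1, g2⁆, g3⁆, ?_, ?_⟩
    · rw [commutatorElement_def ⁅g1, g2⁆, mul_assoc, mul_assoc, ← mul_assoc g3]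
      exact mul_mem h12 ((derivedSeries_normal G (n + 1)).conj_mem _ (inv_mem h12) g3)
    · have e12 : mat2 u * mat2 v - mat2 v * mat2 u =
          !![0, 0, 0; 0, u.1 * v.2 - u.2 * v.1, 0; 0, 0, u.1 * v.2 - u.2 * v.1] := by
        ext i j
        fin_cases i <;> fin_cases j <;> simp [mat2, mul_apply, Fin.sum_univ_three] <;> grind
      have e4 := comm_val hu.spec.2.sand hv.spec.2.sand e1 e2
      rw [e12] at e4
      have hη : (u.1 * v.2 - u.2 * v.1) * (u.1 * v.2 - u.2 * v.1) = 0 := by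
        obtain ⟨h1, h2, h3⟩ := hu.spec.2
        grind
      have e5 := comm_val (sandwich (fun i j k l => by
        fin_cases i <;> fin_cases j <;> fin_cases k <;> fin_cases l <;> simp [hη]))
        hw.spec.2.sand e4 e3
      refine e5.trans ?_
      rw [e]
      congr 1
      ext i j
      fin_cases i <;> fin_cases j <;> simp [mat2, tri, mul_apply, Fin.sum_univ_three] <;> grind

end Defs

section Data

variable (k K : Type) [CommRing k] [CommRing K] [Algebra k K]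

open TrivSqZeroExt

/-- first-order part of the standard action -/
def D21 : (Fin 2 → k) →ₗ[k] (Fin 2 → k) := Matrix.toLin' !![0, 0; 1, 0]

lemma D21_apply (v : Fin 2 → k) : D21 k v = ![0, v 0] := by
  ext i
  fin_cases i <;> simp [D21, Matrix.mulVec, dotProduct, Fin.sum_univ_two]

theorem data2 (n : ℕ) :
    ∃ (R : Type) (_ : CommRing R) (_ : Algebra k R), Module.Free k R ∧ Module.Finite k R ∧
      ∃ (σ : R →ₐ[k] R[X]) (E F : R →ₗ[k] K) (κ : R × R), InvF σ E ∧
        (∀ r, hat F (σ r) = PowerSeries.C (F r) + PowerSeries.C (E r) * PowerSeries.X) ∧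
        Good2 σ.toRingHom n κ ∧ E κ.1 = 1 ∧ E κ.2 = 0 ∧ F κ.1 = 0 ∧ F κ.2 = 1 := by
  induction n with
  | zero =>
    have z : (![0, 0] : Fin 2 → k) = 0 := by
      ext i
      fin_cases i <;> rfl
    refine ⟨SZ k 2, inferInstance, inferInstance, SZ_free, SZ_finite, bσ (D21 k) 0, co K 0, co K 1,
      (inr ![1, 0], inr ![0, 1]), fun r => ?_, fun r => ?_, ⟨⟨?_, ?_⟩, ?_, ?_, ?_⟩, ?_, ?_, ?_, ?_⟩
    · simp [hat_bσ, D21_apply, co_apply]
    · simp [hat_bσ, D21_apply, co_apply]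
    · simp [bσ_inr, D21_apply]
    · simp [bσ_inr, D21_apply, z]
    · exact inr_mul_inr _ _ _
    · exact inr_mul_inr _ _ _
    · exact inr_mul_inr _ _ _
    all_goals simp [co_apply]
  | succ n ih =>
    obtain ⟨R, _, _, _, _, σ, E, F, κ, hE, hF, hκ, e1, e2, e3, e4⟩ := ih
    have hΩ : InvF (tσ σ σ) (tens F E - tens E F) := by
      intro r
      induction r with
      | zero => simp [hat_zero]
      | tmul a b =>
        simp only [sub_hat, hat_tσ, hE a, hE b, hF, LinearMap.sub_apply, tens_tmul, map_sub,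
          map_mul]
        ring
      | add x y hx hy => rw [map_add, hat_add, hx, hy, map_add, map_add]
    have h2 : Good2 (tσ σ σ).toRingHom n (iL k R R κ.1, iL k R R κ.2) := hκ.map (tσ_iL σ σ)
    have h3 : Good2 (tσ σ σ).toRingHom n (iR k R R κ.1, iR k R R κ.2) := hκ.map (tσ_iR σ σ)
    have key : ∀ (H : R →ₗ[k] K) (a b c d e : R),
        tens H (tens F E - tens E F) ((iL k R (R ⊗[k] R) a * iR k R (R ⊗[k] R) (iL k R R b) -
          iL k R (R ⊗[k] R) c * iR k R (R ⊗[k] R) (iL k R R d)) * iR k R (R ⊗[k] R) (iR k R R e)) =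
        H a * (F b * E e - E b * F e) - H c * (F d * E e - E d * F e) := by
      intro H a b c d e
      rw [sub_mul, mul_assoc, mul_assoc, ← map_mul, ← map_mul, map_sub, tens_mul, tens_mul]
      simp only [LinearMap.sub_apply, tens_mul]
    refine ⟨R ⊗[k] (R ⊗[k] R), inferInstance, inferInstance, inferInstance, inferInstance,
      tσ σ (tσ σ σ), tens E (tens F E - tens E F), tens F (tens F E - tens E F), _,
      hE.tens hΩ, fun r => ?_,
      ⟨_, _, _, hκ.map (tσ_iL σ (tσ σ σ)), h2.map (tσ_iR σ (tσ σ σ)),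
        h3.map (tσ_iR σ (tσ σ σ)), rfl⟩, ?_, ?_, ?_, ?_⟩
    · induction r with
      | zero => simp [hat_zero]
      | tmul a b =>
        rw [hat_tσ, hF, hΩ, tens_tmul, tens_tmul, map_mul, map_mul]
        ring
      | add x y hx hy =>
        rw [map_add, hat_add, hx, hy, map_add, map_add, map_add, map_add]
        ring
    all_goals
      simp only [tri, key, e1, e2, e3, e4]
      ring

end Data

section Grp

variable {R : Type} [CommRing R]

/-- parametrisation of the group -/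
def gm (a b c u v : R) : Matrix (Fin 3) (Fin 3) R :=
  !![1 + u * v, u * c + v * (1 + a), u * (1 + a + (1 + a) * (b * c + u * v)) + v * b;
    u, 1 + a, b; v, c, 1 + a + (1 + a) * (b * c + u * v)]

/-- the bilinear form -/
def BB (R : Type) [CommRing R] : Matrix (Fin 3) (Fin 3) R := !![1, 0, 0; 0, 0, 1; 0, 1, 0]

lemma param (h2 : (2 : R) = 0) (g : Matrix (Fin 3) (Fin 3) R) (hO : gᵀ * BB R * g = BB R)
    (hD : g.det = 1) (ha : (g 1 1 - 1) ^ 2 = 0) (hu : g 1 0 ^ 2 = 0) (hv : g 2 0 ^ 2 = 0) :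
    g = gm (g 1 1 - 1) (g 1 2) (g 2 1) (g 1 0) (g 2 0) := by
  have o00 := congrFun (congrFun hO 0) 0
  have o01 := congrFun (congrFun hO 0) 1
  have o02 := congrFun (congrFun hO 0) 2
  have o12 := congrFun (congrFun hO 1) 2
  simp [BB, mul_apply, Fin.sum_univ_three] at o00 o01 o02 o12
  rw [det_fin_three] at hD
  have e1 : g 0 1 = g 0 0 * (g 1 0 * g 2 1 + g 2 0 * g 1 1) := by grind
  have e2 : g 0 2 = g 0 0 * (g 1 0 * g 2 2 + g 2 0 * g 1 2) := by grind
  have e3 : g 1 1 * g 2 2 + g 1 2 * g 2 1 = 1 + g 1 0 * g 2 0 := by grind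
  have e4 : g 0 0 = 1 + g 1 0 * g 2 0 := by grind
  have e5 : g 2 2 = g 1 1 + g 1 1 * (g 1 2 * g 2 1 + g 1 0 * g 2 0) := by grind
  ext i j
  fin_cases i <;> fin_cases j <;> simp [gm] <;> grind

lemma gm_pow (h2 : (2 : R) = 0) {a b c u v : R} (ha : a ^ 2 = 0) (hb : b ^ 2 = 0) (hc : c ^ 2 = 0)
    (hu : u ^ 2 = 0) (hv : v ^ 2 = 0) :
    gm a b c u v ^ 4 = 1 + !![0, a * b * c * v, a * b * c * u;
      a * b * c * u, (1 + a) * b * c * u * v, 0; a * b * c * v, 0, (1 + a) * b * c * u * v] := by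
  have e2 : gm a b c u v * gm a b c u v =
      !![1 + b * c * u * v + a * b * c * u * v, a * v + c * u + b * c * v,
          a * u + b * v + a * b * c * u;
        a * u + b * v, 1 + b * c + u * v + a * u * v, a * b * u * v;
        a * v + c * u + b * c * v + a * b * c * v, a * c * u * v,
          1 + b * c + u * v + a * u * v + b * c * u * v + a * b * c * u * v] := by
    ext i j
    fin_cases i <;> fin_cases j <;> simp [gm, mul_apply, Fin.sum_univ_three] <;> grind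
  rw [show 4 = 2 * 2 by norm_num, pow_mul, pow_two, pow_two, e2]
  ext i j
  fin_cases i <;> fin_cases j <;> simp [mul_apply, Fin.sum_univ_three] <;> grind

/-- the unipotent matrix -/
noncomputable def UU (R : Type) [CommRing R] : Matrix (Fin 3) (Fin 3) R[X] :=
  !![1, 0, 0; 0, 1, X; 0, 0, 1]

lemma UU_mul (h2 : (2 : R) = 0) : UU R * UU R = 1 := by
  have h : (2 : R[X]) = 0 := by rw [← map_ofNat C 2, h2, map_zero]
  ext1 i j
  fin_cases i <;> fin_cases j <;> simp [UU, mul_apply, Fin.sum_univ_three]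
  linear_combination X * h

/-- the norm map: coefficient of `X ^ 3` of the twisted matrix -/
noncomputable def nm (σ : R →+* R[X]) (m : Matrix (Fin 3) (Fin 3) R) : Matrix (Fin 3) (Fin 3) R :=
  (UU R * m.map σ * UU R).map fun f => f.coeff 3

/-- invariant matrices -/
def InvU (σ : R →+* R[X]) (z : Matrix (Fin 3) (Fin 3) R) : Prop :=
  z.map σ = UU R * z.map C * UU R

lemma nm_add (σ : R →+* R[X]) (m m' : Matrix (Fin 3) (Fin 3) R) :
    nm σ (m + m') = nm σ m + nm σ m' := by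
  ext i j
  simp only [nm, Matrix.map_add _ (map_add σ), mul_add, add_mul, map_apply, Matrix.add_apply,
    coeff_add]

lemma nm_mul (h2 : (2 : R) = 0) {σ : R →+* R[X]} {z w : Matrix (Fin 3) (Fin 3) R} (hz : InvU σ z)
    (hw : InvU σ w) (m : Matrix (Fin 3) (Fin 3) R) : nm σ (z * m * w) = z * nm σ m * w := by
  have e : UU R * (z * m * w).map σ * UU R = z.map C * (UU R * m.map σ * UU R) * w.map C := by
    rw [Matrix.map_mul, Matrix.map_mul, hz, hw]
    calc _ = UU R * UU R * z.map C * (UU R * m.map σ * UU R) * w.map C * (UU R * UU R) := by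
          simp only [mul_assoc]
      _ = _ := by rw [UU_mul h2, one_mul, mul_one]
  ext i j
  rw [nm, e, nm]
  generalize UU R * m.map σ * UU R = T
  simp only [map_apply, Matrix.mul_apply, finsetSum_coeff, coeff_mul_C, coeff_C_mul]

lemma InvU.mul (h2 : (2 : R) = 0) {σ : R →+* R[X]} {z w : Matrix (Fin 3) (Fin 3) R}
    (hz : InvU σ z) (hw : InvU σ w) : InvU σ (z * w) := by
  rw [InvU, Matrix.map_mul, Matrix.map_mul, hz, hw]
  calc _ = UU R * z.map C * (UU R * UU R) * w.map C * UU R := by simp only [mul_assoc]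
    _ = _ := by rw [UU_mul h2, mul_one, mul_assoc (UU R)]

lemma InvU.one (h2 : (2 : R) = 0) (σ : R →+* R[X]) : InvU σ 1 := by
  rw [InvU, Matrix.map_one _ (map_zero _) (map_one _), Matrix.map_one _ (map_zero _) (map_one _),
    mul_one, UU_mul h2]

/-- the fourth power is a norm, given a divided square `β` of `b` -/
lemma gm_norm (h2 : (2 : R) = 0) {σ : R →+* R[X]} {a b c u v β γ : R} (ha : a ^ 2 = 0)
    (hb : b ^ 2 = 0) (hc : c ^ 2 = 0) (hu : u ^ 2 = 0) (hv : v ^ 2 = 0)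
    (sa : σ a = C a + C c * X)
    (sb : σ b = C b + C ((1 + a) * (b * c + u * v)) * X + C c * X ^ 2)
    (su : σ u = C u + C v * X) (sv : σ v = C v)
    (sβ : σ β = C β + C (b * ((1 + a) * (b * c + u * v))) * X + C (b * c * (1 + u * v)) * X ^ 2 +
      C ((1 + a) * (b * c + u * v) * c) * X ^ 3 + C γ * X ^ 4) :
    nm σ !![0, β * (a * u + b * v), 0; 0, β * (u * v) * b, 0;
        β * (a * u + b * v), β * (u * v) * (1 + a), 0] =
      !![0, a * b * c * v, a * b * c * u;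
      a * b * c * u, (1 + a) * b * c * u * v, 0; a * b * c * v, 0, (1 + a) * b * c * u * v] := by
  have k2 : (2 : R[X]) = 0 := by rw [← map_ofNat C 2, h2, map_zero]
  have ka : (C a : R[X]) ^ 2 = 0 := by rw [← map_pow, ha, map_zero]
  have kb : (C b : R[X]) ^ 2 = 0 := by rw [← map_pow, hb, map_zero]
  have kc : (C c : R[X]) ^ 2 = 0 := by rw [← map_pow, hc, map_zero]
  have ku : (C u : R[X]) ^ 2 = 0 := by rw [← map_pow, hu, map_zero]
  have kv : (C v : R[X]) ^ 2 = 0 := by rw [← map_pow, hv, map_zero]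
  have r1 : σ (β * (a * u + b * v)) = C (β * (a * u + b * v)) +
      C (β * (c * u + a * v + b * c * v + a * b * c * v)) * X + C (a * b * c * u) * X ^ 2 +
      C (a * b * c * v) * X ^ 3 + C (γ * (a * u + b * v)) * X ^ 4 +
      C (γ * (c * u + a * v + b * c * v + a * b * c * v)) * X ^ 5 := by
    simp only [map_add, map_mul, map_one, sa, sb, su, sv, sβ]
    grind
  have r2 : σ (β * (u * v) * b) = C (β * u * v * b) + C (β * u * v * (1 + a) * b * c) * X +
      C (β * u * v * c) * X ^ 2 + C (γ * u * v * b) * X ^ 4 +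
      C (γ * u * v * (1 + a) * b * c) * X ^ 5 + C (γ * u * v * c) * X ^ 6 := by
    simp only [map_add, map_mul, map_one, sa, sb, su, sv, sβ]
    grind
  have r3 : σ (β * (u * v) * (1 + a)) = C (β * u * v * (1 + a)) + C (β * u * v * c) * X +
      C ((1 + a) * b * c * u * v) * X ^ 2 + C (γ * u * v * (1 + a)) * X ^ 4 +
      C (γ * u * v * c) * X ^ 5 := by
    simp only [map_add, map_mul, map_one, sa, sb, su, sv, sβ]
    grind
  ext i j
  fin_cases i <;> fin_cases j <;>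
    simp [nm, UU, mul_apply, vecMul, dotProduct, Fin.sum_univ_three, -map_mul, -map_add, r1, r2, r3,
      coeff_X, coeff_C, coeff_X_pow, add_mul, coeff_C_mul]
  grind

/-- divided squares from a lift without `2`-torsion -/
lemma div_sq {T : Type} [CommRing T] (h2 : (2 : R) = 0) {π : T →+* R}
    (hs : Function.Surjective π) (hker : ∀ x, π x = 0 → ∃ y, x = 2 * y)
    (hreg : ∀ x : T, 2 * x = 0 → x = 0) {τ : T →+* T[X]} {σ : R →+* R[X]}
    (hσ : ∀ x, σ (π x) = (τ x).map π) {a b c u v : R} (ha : a ^ 2 = 0)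
    (hb : b ^ 2 = 0) (hc : c ^ 2 = 0) (hu : u ^ 2 = 0) (hv : v ^ 2 = 0)
    (sb : σ b = C b + C ((1 + a) * (b * c + u * v)) * X + C c * X ^ 2) :
    ∃ β γ, σ β = C β + C (b * ((1 + a) * (b * c + u * v))) * X +
      C (b * c * (1 + u * v)) * X ^ 2 + C ((1 + a) * (b * c + u * v) * c) * X ^ 3 +
      C γ * X ^ 4 := by
  obtain ⟨a, rfl⟩ := hs a
  obtain ⟨b, rfl⟩ := hs b
  obtain ⟨c, rfl⟩ := hs c
  obtain ⟨u, rfl⟩ := hs u
  obtain ⟨v, rfl⟩ := hs v
  obtain ⟨α, hα⟩ := hker (a ^ 2) (by rw [map_pow, ha])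
  obtain ⟨β, hβ⟩ := hker (b ^ 2) (by rw [map_pow, hb])
  obtain ⟨γ, hγ⟩ := hker (c ^ 2) (by rw [map_pow, hc])
  obtain ⟨μ, hμ⟩ := hker (u ^ 2) (by rw [map_pow, hu])
  obtain ⟨ν, hν⟩ := hker (v ^ 2) (by rw [map_pow, hv])
  obtain ⟨w, hw⟩ : C (2 : T) ∣ τ b - (C b + C ((1 + a) * (b * c + u * v)) * X + C c * X ^ 2) := by
    rw [C_dvd_iff_dvd_coeff]
    intro i
    apply hker
    rw [← coeff_map, Polynomial.map_sub, ← hσ, sb]
    simp
  have hreg' : ∀ f : T[X], 2 * f = 0 → f = 0 := by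
    intro f hf
    ext i
    apply hreg
    rw [← coeff_C_mul, map_ofNat, hf, coeff_zero]
  have kα : (C a : T[X]) ^ 2 = 2 * C α := by rw [← map_pow, hα, map_mul, map_ofNat]
  have kβ : (C b : T[X]) ^ 2 = 2 * C β := by rw [← map_pow, hβ, map_mul, map_ofNat]
  have kγ : (C c : T[X]) ^ 2 = 2 * C γ := by rw [← map_pow, hγ, map_mul, map_ofNat]
  have kμ : (C u : T[X]) ^ 2 = 2 * C μ := by rw [← map_pow, hμ, map_mul, map_ofNat]
  have kν : (C v : T[X]) ^ 2 = 2 * C ν := by rw [← map_pow, hν, map_mul, map_ofNat]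
  have kτ : τ b ^ 2 = 2 * τ β := by rw [← map_pow, hβ, map_mul, map_ofNat]
  rw [map_ofNat, sub_eq_iff_eq_add] at hw
  simp only [map_add, map_mul, map_one] at hw
  have key : τ β = C β + C b * ((1 + C a) * (C b * C c + C u * C v)) * X +
      C b * C c * (1 + C u * C v) * X ^ 2 + (1 + C a) * (C b * C c + C u * C v) * C c * X ^ 3 +
      C γ * X ^ 4 + 2 * (w * (C b + (1 + C a) * (C b * C c + C u * C v) * X + C c * X ^ 2) + w ^ 2 +
        ((1 + C a) ^ 2 * (C β * C γ + C μ * C ν) + (C a + C α) * C b * C c * C u * C v) * X ^ 2) := by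
    rw [← sub_eq_zero]
    apply hreg'
    rw [hw] at kτ
    linear_combination -kτ + (1 + (1 + C a) ^ 2 * C c ^ 2 * X ^ 2) * kβ +
      (X ^ 4 + (1 + C a) ^ 2 * 2 * C β * X ^ 2) * kγ + (1 + C a) ^ 2 * C v ^ 2 * X ^ 2 * kμ +
      (1 + C a) ^ 2 * 2 * C μ * X ^ 2 * kν + 2 * C b * C c * C u * C v * X ^ 2 * kα
  refine ⟨π β, π γ, ?_⟩
  have k2 : (2 : R[X]) = 0 := by rw [← map_ofNat C 2, h2, map_zero]
  rw [hσ, key]
  simp [k2]

lemma gen_spec (h2 : (2 : R) = 0) {σ : R →+* R[X]} {κ : R × R} (hi : Inv2 σ κ) (hq : Sq2 κ) :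
    (1 + mat2 κ)ᵀ * BB R * (1 + mat2 κ) = BB R ∧ (1 + mat2 κ).det = 1 ∧ InvU σ (1 + mat2 κ) := by
  obtain ⟨i1, i2⟩ := hi
  obtain ⟨q1, q2, q3⟩ := hq
  have k2 : (2 : R[X]) = 0 := by rw [← map_ofNat C 2, h2, map_zero]
  refine ⟨?_, ?_, ?_⟩
  · ext i j
    fin_cases i <;> fin_cases j <;> simp [BB, mat2, Matrix.mul_apply, Fin.sum_univ_three] <;>
      grind
  · simp [det_fin_three, mat2]
    grind
  · ext1 i j
    fin_cases i <;> fin_cases j <;>
      simp [UU, mat2, Matrix.mul_apply, vecMul, dotProduct, Fin.sum_univ_three, i1, i2] <;> grind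

lemma inv_entries (h2 : (2 : R) = 0) {σ : R →+* R[X]} {a b c u v : R}
    (h : InvU σ (gm a b c u v)) : σ a = C a + C c * X ∧
      σ b = C b + C ((1 + a) * (b * c + u * v)) * X + C c * X ^ 2 ∧ σ u = C u + C v * X ∧
      σ v = C v := by
  have k2 : (2 : R[X]) = 0 := by rw [← map_ofNat C 2, h2, map_zero]
  have s11 := congrFun (congrFun h 1) 1
  have s12 := congrFun (congrFun h 1) 2
  have s10 := congrFun (congrFun h 1) 0
  have s20 := congrFun (congrFun h 2) 0
  simp [gm, UU, Matrix.mul_apply, vecMul, dotProduct, Fin.sum_univ_three] at s11 s12 s10 s20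
  refine ⟨by grind, ?_, by grind, s20⟩
  simp only [map_add, map_mul, map_one]
  grind

theorem NS_four_of [Finite R] [CharP R 2] {T : Type} [CommRing T] {π : T →+* R}
    (hs : Function.Surjective π) (hker : ∀ x, π x = 0 → ∃ y, x = 2 * y)
    (hreg : ∀ x : T, 2 * x = 0 → x = 0) {τ : T →+* T[X]} {σ : R →+* R[X]}
    (hσ : ∀ x, σ (π x) = (τ x).map π) (E : T →+ ZMod 2) (hE2 : ∀ x, π x = 0 → E x = 0)
    (hE : ∀ x j, j ≠ 0 → E ((τ x).coeff j) = 0) {f : ℕ} {κ : T × T} (hκ : Good2 τ f κ)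
    (e1 : E κ.1 = 1) : NS 4 f := by
  have h2 : (2 : R) = 0 := CharTwo.two_eq_zero
  let G : Subgroup (Matrix (Fin 3) (Fin 3) R)ˣ := toSub
    { carrier := {g | g.valᵀ * BB R * g.val = BB R ∧ g.val.det = 1 ∧
        g.val.map (frobenius R 2) = 1 ∧ InvU σ g.val}
      mul_mem' := by
        rintro g h ⟨a1, a2, a3, a4⟩ ⟨b1, b2, b3, b4⟩
        refine ⟨?_, ?_, ?_, a4.mul h2 b4⟩
        · rw [Units.val_mul, transpose_mul]
          calc _ = h.valᵀ * (g.valᵀ * BB R * g.val) * h.val := by simp only [mul_assoc]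
            _ = _ := by rw [a1, b1]
        · rw [Units.val_mul, det_mul, a2, b2, mul_one]
        · rw [Units.val_mul, Matrix.map_mul, a3, b3, mul_one]
      one_mem' := ⟨by simp, by simp, Matrix.map_one _ (map_zero _) (map_one _), InvU.one h2 σ⟩ }
  have hG : ∀ g : G, g.val.valᵀ * BB R * g.val.val = BB R ∧ g.val.val.det = 1 ∧
      g.val.val.map (frobenius R 2) = 1 ∧ InvU σ g.val.val := fun g => g.2
  let M : Subgroup G := toSub
    { carrier := {g | ∃ m, g.val.val = 1 + nm σ m}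
      mul_mem' := by
        rintro g h ⟨m, hm⟩ ⟨m', hm'⟩
        refine ⟨m + g.val.val * m' * 1, ?_⟩
        rw [nm_add, nm_mul h2 (hG g).2.2.2 (InvU.one h2 σ), mul_one, ← add_assoc, ← hm,
          ← mul_one_add, ← hm']
        rfl
      one_mem' := ⟨0, by
        have := nm_add σ 0 0
        rw [add_zero, left_eq_add] at this
        rw [this, add_zero]
        rfl⟩ }
  have hM : ∀ g : G, g ∈ M ↔ ∃ m, g.val.val = 1 + nm σ m := fun g => Iff.rfl
  have : M.Normal := ⟨by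
    rintro g ⟨m, hm⟩ u
    refine ⟨u.val.val * m * u⁻¹.val.val, ?_⟩
    have e : u.val.val * u⁻¹.val.val = 1 := congrArg (fun x : G => x.val.val) (mul_inv_cancel u)
    rw [nm_mul h2 (hG u).2.2.2 (hG u⁻¹).2.2.2]
    change u.val.val * g.val.val * u⁻¹.val.val = _
    rw [hm, mul_add, mul_one, add_mul, e]⟩
  obtain ⟨g, hg, eg⟩ := (hκ.map hσ).mem G (fun κ hi hq g e => by
    obtain ⟨a1, a2, a3⟩ := gen_spec h2 hi hq
    change _ ∧ _ ∧ _ ∧ _
    rw [e]
    refine ⟨a1, a2, ?_, a3⟩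
    ext i j
    fin_cases i <;> fin_cases j <;> simp [mat2, frobenius_def, pow_two, hq.1, hq.2.2])
  refine NS_of_quot G M (fun g => ?_) g hg (fun h => ?_)
  · obtain ⟨a1, a2, a3, a4⟩ := hG g
    change ∃ m, g.val.val ^ 4 = 1 + nm σ m
    generalize g.val.val = z at a1 a2 a3 a4
    have f11 := congrFun (congrFun a3 1) 1
    have f12 := congrFun (congrFun a3 1) 2
    have f21 := congrFun (congrFun a3 2) 1
    have f10 := congrFun (congrFun a3 1) 0
    have f20 := congrFun (congrFun a3 2) 0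
    simp only [map_apply, frobenius_def, one_apply] at f11 f12 f21 f10 f20
    simp only [if_true, Fin.reduceEq, if_false] at f11 f12 f21 f10 f20
    have ha : (z 1 1 - 1) ^ 2 = 0 := by rw [sub_pow_char, f11, one_pow, sub_self]
    have e := param h2 z a1 a2 ha f10 f20
    generalize z 1 1 - 1 = a, z 1 2 = b, z 2 1 = c, z 1 0 = u, z 2 0 = v at e ha f12 f21 f10 f20
    subst e
    obtain ⟨sa, sb, su, s20⟩ := inv_entries h2 a4
    obtain ⟨β, γ, sβ⟩ := div_sq h2 hs hker hreg hσ ha f12 f21 f10 f20 sb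
    exact ⟨_, by rw [gm_pow h2 ha f12 f21 f10 f20, gm_norm h2 ha f12 f21 f10 f20 sa sb su s20 sβ]⟩
  · obtain ⟨m, hm⟩ := h
    rw [eg, add_right_inj] at hm
    have e := congrFun (congrFun hm 1) 0
    obtain ⟨x, hx⟩ := hs (m 1 0)
    obtain ⟨y, hy⟩ := hs (m 2 0)
    have e' : π κ.1 = (σ (m 1 0)).coeff 3 + (σ (m 2 0)).coeff 2 := by
      simpa [mat2, nm, UU, Matrix.mul_apply, vecMul, dotProduct, Fin.sum_univ_three,
        coeff_X_mul] using e
    rw [← hx, ← hy, hσ, hσ, coeff_map, coeff_map, ← map_add, ← sub_eq_zero, ← map_sub] at e'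
    have e2 := hE2 _ e'
    rw [map_sub, map_add, e1] at e2
    rw [hE x 3 (by norm_num), hE y 2 (by norm_num), add_zero, sub_zero] at e2
    exact one_ne_zero e2

theorem NS_four (f : ℕ) : NS 4 f := by
  obtain ⟨T, _, inst, _, _, τ, E, F, κ, hE, -, hκ, e1, -⟩ := data2 ℤ (ZMod 2) f
  obtain rfl : inst = Ring.toIntAlgebra T := Subsingleton.elim _ _
  let R := T ⧸ Ideal.span {(2 : T)}
  let π : T →+* R := Ideal.Quotient.mk _
  have hker : ∀ x, π x = 0 → ∃ y, x = 2 * y := fun x hx =>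
    Ideal.mem_span_singleton.mp (Ideal.Quotient.eq_zero_iff_mem.mp hx)
  have h2 : (2 : R) = 0 := by
    rw [← map_ofNat π 2]
    exact Ideal.Quotient.eq_zero_iff_mem.mpr (Ideal.mem_span_singleton_self _)
  have hreg : ∀ x : T, 2 * x = 0 → x = 0 := by
    intro x hx
    have h : (2 : ℤ) • x = 0 := by rw [two_smul, ← two_mul, hx]
    exact (smul_eq_zero.mp h).resolve_left two_ne_zero
  have k2 : (2 : R[X]) = 0 := by rw [← map_ofNat C 2, h2, map_zero]
  let σ : R →+* R[X] := Ideal.Quotient.lift _ ((mapRingHom π).comp τ.toRingHom) (by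
    intro x hx
    obtain ⟨y, rfl⟩ := Ideal.mem_span_singleton.mp hx
    rw [map_mul, map_ofNat, k2, zero_mul])
  have hE2 : ∀ x, π x = 0 → E x = 0 := by
    intro x hx
    obtain ⟨y, rfl⟩ := hker x hx
    rw [two_mul, map_add, CharTwo.add_self_eq_zero]
  have : Finite R := by
    refine Module.finite_of_fg_torsion R fun x =>
      ⟨⟨2, mem_nonZeroDivisors_of_ne_zero two_ne_zero⟩, ?_⟩
    change (2 : ℤ) • x = 0
    rw [two_smul, ← two_mul, h2, zero_mul]
  have : Nontrivial R := nontrivial_of_ne (π κ.1) 0 fun h => one_ne_zero (e1.symm.trans (hE2 _ h))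
  have : CharP R 2 := CharTwo.of_one_ne_zero_of_two_eq_zero one_ne_zero h2
  exact NS_four_of (π := π) (σ := σ) Ideal.Quotient.mk_surjective hker hreg (fun _ => rfl)
    E.toAddMonoidHom hE2 (fun x j hj => hE.coeff x hj) hκ e1

end Grp

end Pool.Agent.P.MP_9155ad_al.Rz
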