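import Mathlib

/-!
Ring-theoretic part: matrices with square-zero entries, elementary matrices, and the group algebra
of an elementary abelian 2-group.
-/

namespace Pool.Agent.P.MP_9155ad_al

open Matrix
open scoped commutatorElement

set_option linter.unusedSectionVars false

section Nil

variable {R : Type} [CommRing R]

lemma span_pow_eq_bot (s : Finset R) (hs : ∀ y ∈ s, y * y = 0) :
    (Ideal.span (s : Set R)) ^ (2 * s.card + 1) = ⊥ := by
  classical
  induction s using Finset.induction_on with
  | empty => simp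
  | insert y s hy ih =>
    have h1 := ih (fun z hz => hs z (Finset.mem_insert_of_mem hz))
    have h2 : (Ideal.span {y}) ^ 2 = (⊥ : Ideal R) := by
      rw [Ideal.span_singleton_pow, pow_two, hs y (Finset.mem_insert_self _ _)]
      simp
    rw [Finset.coe_insert, Ideal.span_insert, Finset.card_insert_of_notMem hy,
      show 2 * (s.card + 1) + 1 = 2 + (2 * s.card + 1) by ring]
    refine le_bot_iff.mp (Ideal.sup_pow_add_le_pow_sup_pow.trans ?_)
    rw [h1, h2]
    simp

lemma pow_entry_mem (I : Ideal R) (X : Matrix (Fin 3) (Fin 3) R) (hX : ∀ i j, X i j ∈ I) (m : ℕ) :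
    ∀ i j, (X ^ m) i j ∈ I ^ m := by
  induction m with
  | zero => intro i j; simp
  | succ m ih =>
    intro i j
    rw [pow_succ X m, Matrix.mul_apply, pow_succ I m]
    exact Ideal.sum_mem _ (fun l _ => Ideal.mul_mem_mul (ih i l) (hX l j))

lemma pow_eq_zero_of_entries (X : Matrix (Fin 3) (Fin 3) R) (hX : ∀ i j, X i j * X i j = 0) :
    X ^ 32 = 0 := by
  classical
  obtain ⟨s, hs⟩ : ∃ s : Finset R, s = Finset.univ.image (fun p : Fin 3 × Fin 3 => X p.1 p.2) :=
    ⟨_, rfl⟩
  have hc : s.card ≤ 9 := by
    rw [hs]
    refine Finset.card_image_le.trans ?_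
    simp
  have h1 := span_pow_eq_bot s (by
    intro y hy
    rw [hs] at hy
    obtain ⟨p, -, rfl⟩ := Finset.mem_image.mp hy
    exact hX _ _)
  have h4 : ∀ m : ℕ, 19 ≤ m → X ^ m = 0 := by
    intro m hm
    have h5 : 2 * s.card + 1 ≤ m := by omega
    have h6 : (Ideal.span (s : Set R)) ^ m ≤ (Ideal.span (s : Set R)) ^ (2 * s.card + 1) :=
      Ideal.pow_le_pow_right h5
    rw [h1] at h6
    ext i j
    have h3 := pow_entry_mem (Ideal.span (s : Set R)) X (fun i j =>
      Ideal.subset_span (Finset.mem_coe.mpr
        (by rw [hs]; exact Finset.mem_image.mpr ⟨(i, j), Finset.mem_univ _, rfl⟩))) m i j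
    exact (Submodule.mem_bot R).mp (h6 h3)
  exact h4 32 (by norm_num)

lemma one_add_pow_eq_one [CharP R 2] (X : Matrix (Fin 3) (Fin 3) R)
    (hX : ∀ i j, X i j * X i j = 0) : (1 + X) ^ 32 = 1 := by
  have h := add_pow_char_pow_of_commute (R := Matrix (Fin 3) (Fin 3) R) 2 5 (Commute.one_left X)
  rw [show (2 : ℕ) ^ 5 = 32 by norm_num, pow_eq_zero_of_entries X hX] at h
  simpa using h

/-- the elementary matrix with entry `c` at position `(i, j)` (the identity if `i = j`) -/
def el (i j : Fin 3) (c : R) : (Matrix (Fin 3) (Fin 3) R)ˣ :=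
  if h : i = j then 1 else
    ⟨transvection i j c, transvection i j (-c),
      by rw [transvection_mul_transvection_same i j h]; simp,
      by rw [transvection_mul_transvection_same i j h]; simp⟩

lemma el_val {i j : Fin 3} (h : i ≠ j) (c : R) :
    (el i j c : Matrix (Fin 3) (Fin 3) R) = 1 + single i j c := by
  simp [el, h, transvection]

lemma el_inv_val {i j : Fin 3} (h : i ≠ j) (c : R) :
    ((el i j c)⁻¹ : (Matrix (Fin 3) (Fin 3) R)ˣ) = (1 - single i j c : Matrix (Fin 3) (Fin 3) R) := by
  have : ((el i j c)⁻¹ : (Matrix (Fin 3) (Fin 3) R)ˣ).val = transvection i j (-c) := by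
    rw [el, dif_neg h]; rfl
  rw [this, transvection, sub_eq_add_neg, Matrix.single_neg]

lemma el_comm {i j l : Fin 3} (hij : i ≠ j) (hjl : j ≠ l) (hil : i ≠ l) (r s : R) :
    ⁅el i j r, el j l s⁆ = el i l (r * s) := by
  apply Units.ext
  rw [commutatorElement_def, Units.val_mul, Units.val_mul, Units.val_mul, el_inv_val hij,
    el_inv_val hjl, el_val hij, el_val hjl, el_val hil]
  set a : Matrix (Fin 3) (Fin 3) R := single i j r with ha
  set b : Matrix (Fin 3) (Fin 3) R := single j l s with hb
  have haa : a * a = 0 := single_mul_single_of_ne _ _ _ _ hij.symm _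
  have hbb : b * b = 0 := single_mul_single_of_ne _ _ _ _ hjl.symm _
  have hba : b * a = 0 := single_mul_single_of_ne _ _ _ _ hil.symm _
  have hab : a * b = single i l (r * s) := single_mul_single_same _ _ _ _ _
  rw [← hab]
  have : (1 + a) * (1 + b) * (1 - a) * (1 - b) = 1 + a * b - a * a - b * a - b * b
      + (a * a) * b + (b * a) * b - a * (b * a) - a * (b * b) + a * (b * a) * b := by
    noncomm_ring
  rw [this, haa, hbb, hba]
  simp

lemma el_ne_one {i j : Fin 3} (h : i ≠ j) {c : R} (hc : c ≠ 0) : el i j c ≠ 1 := by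
  intro h1
  have h2 := congrArg (fun u : (Matrix (Fin 3) (Fin 3) R)ˣ => (u : Matrix (Fin 3) (Fin 3) R) i j) h1
  simp [el_val h, h] at h2
  exact hc h2

end Nil

section Alg

variable (A : Type) [Fintype A] [DecidableEq A]

/-- the group algebra of the elementary abelian group `F_2^A` over `F_2` -/
abbrev Rg : Type := AddMonoidAlgebra (ZMod 2) (A → ZMod 2)

instance : Finite (Rg A) :=
  Finite.of_equiv _ (AddMonoidAlgebra.coeffEquiv (R := ZMod 2) (M := A → ZMod 2)).symm

instance : CharP (Rg A) 2 :=
  charP_of_injective_algebraMap (R := ZMod 2) (FaithfulSMul.algebraMap_injective _ _) 2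

/-- the augmentation -/
noncomputable def aug : Rg A →ₐ[ZMod 2] ZMod 2 :=
  AddMonoidAlgebra.lift (ZMod 2) (ZMod 2) (A → ZMod 2) 1

variable {A}

lemma aug_single (v : A → ZMod 2) (c : ZMod 2) : aug A (AddMonoidAlgebra.single v c) = c := by
  simp [aug]

lemma mul_self_eq (y : Rg A) : y * y = algebraMap (ZMod 2) (Rg A) (aug A y) := by
  have h : frobenius (Rg A) 2 = (algebraMap (ZMod 2) (Rg A)).comp (aug A : Rg A →+* ZMod 2) := by
    have key : ∀ (v : A → ZMod 2) (c : ZMod 2), frobenius (Rg A) 2 (AddMonoidAlgebra.single v c) =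
        algebraMap (ZMod 2) (Rg A) (aug A (AddMonoidAlgebra.single v c)) := by
      intro v c
      rw [aug_single, frobenius_def, pow_two, AddMonoidAlgebra.single_mul_single]
      have h1 : v + v = 0 := by
        funext a
        exact CharTwo.add_self_eq_zero _
      have h2 : c * c = c := by
        revert c; decide
      rw [h1, h2]
      simp
    apply AddMonoidAlgebra.ringHom_ext
    · intro c; exact key 0 c
    · intro v; exact key v 1
  have := congrArg (fun f : Rg A →+* Rg A => f y) h
  simpa [frobenius_def, pow_two] using this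

/-- the square-zero variable attached to `a` -/
noncomputable def xv (a : A) : Rg A := 1 + AddMonoidAlgebra.single (Pi.single a 1) 1

lemma aug_xv (a : A) : aug A (xv a) = 0 := by
  rw [xv, map_add, map_one, aug_single]
  decide

lemma prod_xv (S : Finset A) : (∏ a ∈ S, xv a).coeff 0 = 1 ∧
    ∀ v, (∏ a ∈ S, xv a).coeff v ≠ 0 → ∀ a, a ∉ S → v a = 0 := by
  induction S using Finset.induction_on with
  | empty =>
    refine ⟨by simp [AddMonoidAlgebra.one_def], ?_⟩
    intro v hv a _
    by_contra h
    apply hv
    have : v ≠ 0 := fun h0 => h (by simp [h0])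
    simp [AddMonoidAlgebra.one_def, this.symm]
  | insert b S hb ih =>
    obtain ⟨h1, h2⟩ := ih
    have key : ∀ v, (∏ a ∈ insert b S, xv a).coeff v =
        (∏ a ∈ S, xv a).coeff v + (∏ a ∈ S, xv a).coeff (-Pi.single b 1 + v) := by
      intro v
      rw [Finset.prod_insert hb, xv, add_mul, one_mul]
      simp
    refine ⟨?_, ?_⟩
    · rw [key, h1]
      have : (∏ a ∈ S, xv a).coeff (-Pi.single b 1 + 0) = 0 := by
        by_contra h
        have := h2 _ h b hb
        simp at this
      rw [this, add_zero]
    · intro v hv a ha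
      rw [Finset.mem_insert, not_or] at ha
      rw [key] at hv
      by_cases h3 : (∏ a ∈ S, xv a).coeff v = 0
      · rw [h3, zero_add] at hv
        have := h2 _ hv a ha.2
        simpa [Pi.single_apply, ha.1] using this
      · exact h2 v h3 a ha.2

lemma prod_xv_ne_zero (S : Finset A) : (∏ a ∈ S, xv a) ≠ 0 := by
  intro h
  have := (prod_xv S).1
  rw [h] at this
  simp at this

/-- a permutation of `A` permutes the coordinates of `F_2^A` -/
def permV (g : Equiv.Perm A) : (A → ZMod 2) ≃+ (A → ZMod 2) where
  toFun v := fun a => v (g.symm a)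
  invFun v := fun a => v (g a)
  left_inv v := by funext a; simp
  right_inv v := by funext a; simp
  map_add' v w := rfl

/-- a permutation of `A` acts on the group algebra -/
noncomputable def permR (g : Equiv.Perm A) : Rg A ≃+* Rg A :=
  (AddMonoidAlgebra.domCongr (ZMod 2) (ZMod 2) (permV g)).toRingEquiv

lemma permR_single (g : Equiv.Perm A) (v : A → ZMod 2) (c : ZMod 2) :
    permR g (AddMonoidAlgebra.single v c) = AddMonoidAlgebra.single (permV g v) c :=
  AddMonoidAlgebra.domCongr_single (R := ZMod 2) _ _ _

lemma permR_one (y : Rg A) : permR (1 : Equiv.Perm A) y = y := by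
  have h : (permR (1 : Equiv.Perm A) : Rg A →+* Rg A) = RingHom.id _ := by
    apply AddMonoidAlgebra.ringHom_ext
    · intro c; exact permR_single _ _ _
    · intro v; exact permR_single _ _ _
  exact congrArg (fun f : Rg A →+* Rg A => f y) h

lemma permR_mul (g h : Equiv.Perm A) (y : Rg A) : permR (g * h) y = permR g (permR h y) := by
  have h : (permR (g * h) : Rg A →+* Rg A) =
      (permR g : Rg A →+* Rg A).comp (permR h : Rg A →+* Rg A) := by
    have key : ∀ (v : A → ZMod 2) (c : ZMod 2), permR (g * h) (AddMonoidAlgebra.single v c) =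
        permR g (permR h (AddMonoidAlgebra.single v c)) := by
      intro v c
      rw [permR_single, permR_single, permR_single]
      rfl
    apply AddMonoidAlgebra.ringHom_ext
    · intro c; exact key _ _
    · intro v; exact key _ _
  exact congrArg (fun f : Rg A →+* Rg A => f y) h

lemma aug_permR (g : Equiv.Perm A) (y : Rg A) : aug A (permR g y) = aug A y := by
  have h : (aug A : Rg A →+* ZMod 2).comp (permR g : Rg A →+* Rg A) = (aug A : Rg A →+* ZMod 2) := by
    have key : ∀ (v : A → ZMod 2) (c : ZMod 2), aug A (permR g (AddMonoidAlgebra.single v c)) =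
        aug A (AddMonoidAlgebra.single v c) := by
      intro v c
      rw [permR_single, aug_single, aug_single]
    apply AddMonoidAlgebra.ringHom_ext
    · intro c; exact key _ _
    · intro v; exact key _ _
  exact congrArg (fun f : Rg A →+* ZMod 2 => f y) h

lemma permR_xv (g : Equiv.Perm A) (a : A) : permR g (xv a) = xv (g a) := by
  rw [xv, xv, map_add, map_one, permR_single]
  congr 2
  funext b
  change (Pi.single a 1 : A → ZMod 2) (g.symm b) = _
  by_cases h : b = g a
  · subst h; simp
  · have : g.symm b ≠ a := fun h1 => h (by rw [← h1]; simp)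
    simp [h, this]

end Alg

end Pool.Agent.P.MP_9155ad_al
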